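import Pool.Agent.H45.SF.GT

/-!
# MP_3b3fc8_lc, part G, module G2: morphisms onto the elements below the top are good
-/

open Ordinal Cardinal Order Set
open scoped ZFSet

namespace SF.H35

open SF

private theorem g2_le {B : V} [IsCBA B] {N' N : V} {b : El B} {σ : V → V → El B}
    (hM : BMap N' N b σ) (x y : V) : σ x y ≤ b := by
  by_cases h : σ x y = ⊥
  · rw [h]; exact bot_le
  · rw [← hM.tot x (hM.dom x y h).1]
    exact le_iSup (fun y => σ x y) y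

private theorem g2_pick {B : V} [IsCBA B] {N' N : V} {b : El B} {σ : V → V → El B}
    (hM : BMap N' N b σ) {x : V} (hx : x ∈ N') {c : El B} (hc : c ≤ b) (hc0 : c ≠ ⊥) :
    ∃ y, c ⊓ σ x y ≠ ⊥ := by
  by_contra hcon
  simp only [not_exists, not_not] at hcon
  apply hc0
  have h1 : c ⊓ ⨆ y, σ x y = ⊥ := by
    rw [inf_iSup_eq]
    simp [hcon]
  rw [hM.tot x hx, inf_eq_left.2 hc] at h1
  exact h1

private theorem g2_mono {B : V} [IsCBA B] {x y : El B} (h : x ≤ y) (hx : x ≠ ⊥) : y ≠ ⊥ :=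
  fun h2 => hx (le_bot_iff.1 (h2 ▸ h))

private theorem g2_mk {B : V} [IsCBA B] (x : El B) : mkEl B x.val = x := by
  unfold mkEl
  rw [dif_pos x.mem]

private theorem g2_pair {B C : V} [IsCBA B] [IsCBA C] (h : Mor B C) {x y : V} :
    ZFSet.pair x y ∈ h.gr ↔ ∃ u : El B, u.val = x ∧ (h u).val = y := by
  unfold Mor.gr
  rw [ZFSet.mem_range]
  constructor
  · rintro ⟨u, hu⟩
    obtain ⟨h1, h2⟩ := ZFSet.pair_inj.1 hu
    exact ⟨u, h1, h2⟩
  · rintro ⟨u, h1, h2⟩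
    exact ⟨u, by rw [h1, h2]⟩

/-- the inverse of the morphism, on the elements below the top -/
private noncomputable def g2pre {B C : V} [IsCBA B] [IsCBA C] (h : Mor B C) : V :=
  ZFSet.range fun c : {c : El C // c ≤ h ⊤} => ZFSet.pair c.1.val (h.proj c.1).val

/-- the elements below the top -/
private noncomputable def g2dom {B C : V} [IsCBA B] [IsCBA C] (h : Mor B C) : V :=
  C.sep fun c => c ⊆ (h ⊤).val

theorem g2 (hMB : T_MB) (hMP : T_MP) (hAM : T_AM) (hAP : T_AP) (hAF : T_AF) (hBR : T_BR) :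
    T_G2 := by
  classical
  intro A C h honto
  obtain ⟨hmono, hbot, -, -, hsd, hiS, -⟩ := hMB A.B C.B h.toMor
  obtain ⟨hP1, hP2, hP3, -, -, -, hP7, hP8⟩ := hMP A.B C.B h.toMor
  set a : El A.B := h.proj (h ⊤) with ha
  have hproj : ∀ c, c ≤ h ⊤ → h (h.proj c) = c := by
    intro c hc
    obtain ⟨b, hb⟩ := honto c hc
    refine le_antisymm ?_ (hP2 c hc)
    rw [← hb]
    apply hmono
    rw [hP7 b]
    exact inf_le_left
  have hprojle : ∀ c, c ≤ h ⊤ → h.proj c ≤ a := fun c hc => hP3 c _ hc le_rfl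
  refine ⟨ZFSet.pair (g2pre h.toMor) (ZFSet.pair (g2dom h.toMor) a.val), ?_⟩
  intro F q hq
  have hM := F.map
  have hnp := F.np
  have hb := F.ne
  obtain ⟨hAP1, hAP2, hAP3, htr, -, -⟩ := hAP A.B F.N' F.N F.b F.σ hnp hM hb
  have hAMs := fun x y x2 y2 => hAM A.B F.N' F.N F.b F.σ hnp hM x y x2 y2
  have leb := g2_le hM
  -- the known parameters
  obtain ⟨pre', hpre'N, r1, hr1N, hp1, hp2⟩ := hAP2 F.p' _ _ (by rw [F.kp]; exact hb)
  have kpre : F.σ pre' (g2pre h.toMor) = F.b := by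
    refine le_antisymm (leb _ _) ?_
    rw [F.kp] at hp2
    exact hp2.trans inf_le_left
  have kr1 : F.σ r1 (ZFSet.pair (g2dom h.toMor) a.val) = F.b := by
    refine le_antisymm (leb _ _) ?_
    rw [F.kp] at hp2
    exact hp2.trans inf_le_right
  obtain ⟨X', hX'N, a', ha'N, hr1, hr2⟩ := hAP2 r1 _ _ (by rw [kr1]; exact hb)
  have kX : F.σ X' (g2dom h.toMor) = F.b := by
    refine le_antisymm (leb _ _) ?_
    rw [kr1] at hr2
    exact hr2.trans inf_le_left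
  have ka : F.σ a' a.val = F.b := by
    refine le_antisymm (leb _ _) ?_
    rw [kr1] at hr2
    exact hr2.trans inf_le_right
  -- membership in a known set
  have kmem : ∀ {x X X2 y : V}, F.σ X X2 = F.b → F.σ x y ≠ ⊥ → (x ∈ X ↔ y ∈ X2) := by
    intro x X X2 y hX hxy
    refine (hAMs x y X X2 ?_).1
    rw [hX, inf_eq_left.2 (leb x y)]
    exact hxy
  have ksub : ∀ {x X X2 y : V}, F.σ X X2 = F.b → F.σ x y ≠ ⊥ → (x ⊆ X ↔ y ⊆ X2) := by
    intro x X X2 y hX hxy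
    refine (hAMs x y X X2 ?_).2.2.1
    rw [hX, inf_eq_left.2 (leb x y)]
    exact hxy
  have hCN : F.C' ∈ F.N' := (hM.dom _ _ (by rw [F.kC]; exact hb)).1
  have hhN : F.h' ∈ F.N' := (hM.dom _ _ (by rw [F.kh]; exact hb)).1
  have trN : ∀ {x y : V}, x ∈ y → y ∈ F.N' → x ∈ F.N' := fun hxy hy => htr _ hy hxy
  have hGN : ∀ {x}, x ∈ F.G' → x ∈ F.N' := fun hx => trN (F.gen.sub hx) hCN
  have prN : ∀ {x y}, ZFSet.pair x y ∈ F.h' → x ∈ F.N' ∧ y ∈ F.N' := by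
    intro x y hxy
    have h1 := trN hxy hhN
    have h2 : ({x, y} : V) ∈ F.N' := trN (by simp [ZFSet.pair]) h1
    exact ⟨trN (by simp) h2, trN (by simp) h2⟩
  obtain ⟨x0, y0, hxy0, hy0⟩ := F.top
  obtain ⟨hx0N, hy0N⟩ := prN hxy0
  -- the claim
  have claim : F.b ≤ a := by
    obtain ⟨hxaN, hxa⟩ := hAP3 x0 hx0N a' ha'N
    obtain ⟨hprN, hpr1, hpr2⟩ := hAP1 (x0 ∩ a') hxaN y0 hy0N
    have h1 : ZFSet.pair (x0 ∩ a') y0 ∈ F.h' := by
      obtain ⟨s, hs⟩ := g2_pick hM hx0N le_rfl hb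
      obtain ⟨v, hv⟩ := g2_pick hM hy0N (inf_le_left : F.b ⊓ F.σ x0 s ≤ F.b) hs
      have h2 : F.σ x0 s ⊓ F.σ y0 v ≠ ⊥ :=
        g2_mono (le_inf (inf_le_left.trans inf_le_right) inf_le_right) hv
      have h3 : F.σ (ZFSet.pair x0 y0) (ZFSet.pair s v) ≠ ⊥ :=
        g2_mono ((hAP1 x0 hx0N y0 hy0N).2.1 s v) h2
      obtain ⟨u, hu1, hu2⟩ := (g2_pair h.toMor).1 ((kmem F.kh h3).1 hxy0)
      have h4 : F.σ (ZFSet.pair (x0 ∩ a') y0) (ZFSet.pair (s ∩ a.val) v) ≠ ⊥ := by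
        refine g2_mono ?_ h2
        refine le_trans (le_inf ?_ inf_le_right) (hpr1 (s ∩ a.val) v)
        refine le_trans (le_inf inf_le_left ?_) (hxa s a.val)
        rw [ka]
        exact inf_le_left.trans (leb _ _)
      refine (kmem F.kh h4).2 ((g2_pair h.toMor).2 ⟨u ⊓ a, ?_, ?_⟩)
      · rw [El.inf_val, hu1]
      · rw [← hu2]
        congr 1
        rw [h.inf]
        have h5 : h a = h ⊤ := hproj _ le_rfl
        rw [h5]
        exact inf_eq_left.2 (hmono _ _ le_top)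
    rw [← hM.tot _ hxaN]
    apply iSup_le
    intro z
    by_cases hz : F.σ (x0 ∩ a') z = ⊥
    · rw [hz]; exact bot_le
    · have h2 := F.com _ _ h1 hy0 z
      refine h2.trans ?_
      have h3 : z ⊆ a.val := by
        refine (ksub ka hz).1 ?_
        intro w hw
        exact (ZFSet.mem_inter.1 hw).2
      unfold mkEl
      split_ifs with h4
      · exact El.le_iff.2 h3
      · exact bot_le
  refine ⟨h F.b, fun x y => h (F.σ x y) ⊓ h F.b, ⟨le_rfl, ?_, ?_, ?_, ?_⟩⟩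
  · intro b hle
    have h1 : h (F.b \ b) = ⊥ := by
      rw [hsd]
      exact sdiff_eq_bot_iff.2 hle
    have h2 := (hP8 (F.b \ b)).1 h1
    have h3 : F.b \ b = ⊥ := by
      rw [← h2]
      exact (inf_eq_left.2 (sdiff_le.trans claim)).symm
    exact sdiff_eq_bot_iff.1 h3
  · exact hBR A.B C.B F.N' F.N F.b F.σ h.toMor hM (h F.b) le_rfl
  · intro x hx z
    have hxN := hGN hx
    have hDG : x ∩ y0 ∈ F.G' := F.gen.inter x hx y0 hy0
    have hDN := hGN hDG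
    -- `x ∩ y0` is in `X'`
    have hgdom : ∀ {s v : V}, ZFSet.pair s v ∈ h.gr → v ⊆ (h ⊤).val := by
      intro s v hsv
      obtain ⟨u, -, hu2⟩ := (g2_pair h.toMor).1 hsv
      rw [← hu2]
      exact El.le_iff.1 (hmono _ _ le_top)
    have hDX : x ∩ y0 ∈ X' := by
      obtain ⟨w, hw⟩ := g2_pick hM hDN le_rfl hb
      have hw2 : F.σ (x ∩ y0) w ≠ ⊥ := g2_mono inf_le_right hw
      obtain ⟨s, hs⟩ := g2_pick hM hx0N (inf_le_left : F.b ⊓ F.σ (x ∩ y0) w ≤ F.b) hw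
      obtain ⟨v, hv⟩ := g2_pick hM hy0N
        ((inf_le_left.trans inf_le_left) : F.b ⊓ F.σ (x ∩ y0) w ⊓ F.σ x0 s ≤ F.b) hs
      have h3 : F.σ (ZFSet.pair x0 y0) (ZFSet.pair s v) ≠ ⊥ := by
        refine g2_mono ((hAP1 x0 hx0N y0 hy0N).2.1 s v) (g2_mono ?_ hv)
        exact le_inf (inf_le_left.trans inf_le_right) inf_le_right
      have h4 := hgdom ((kmem F.kh h3).1 hxy0)
      have h5 : F.σ (x ∩ y0) w ⊓ F.σ y0 v ≠ ⊥ := by
        refine g2_mono ?_ hv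
        exact le_inf ((inf_le_left.trans inf_le_left).trans inf_le_right) inf_le_right
      have h6 : w ⊆ v := (hAMs _ _ _ _ h5).2.2.1.1 fun t ht => (ZFSet.mem_inter.1 ht).2
      refine (kmem kX hw2).2 (ZFSet.mem_sep.2 ⟨?_, ?_⟩)
      · exact (kmem F.kC hw2).1 (F.gen.sub hDG)
      · exact fun t ht => h4 (h6 ht)
    obtain ⟨-, u, huN, hu1, hu2, hu3⟩ := hAF A.B F.N' F.N F.b F.σ hnp hM hb pre' _ X' _ kpre kX
      (by
        intro y hy
        obtain ⟨hy1, hy2⟩ := ZFSet.mem_sep.1 hy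
        refine ⟨(h.proj ⟨y, hy1⟩).val, ?_, ?_⟩
        · show ZFSet.pair y (h.proj ⟨y, hy1⟩).val ∈ g2pre h.toMor
          unfold g2pre
          rw [ZFSet.mem_range]
          exact ⟨⟨⟨y, hy1⟩, El.le_iff.2 hy2⟩, rfl⟩
        · intro z hz
          unfold g2pre at hz
          rw [ZFSet.mem_range] at hz
          obtain ⟨⟨c, hc⟩, hc2⟩ := hz
          obtain ⟨h1, h2⟩ := ZFSet.pair_inj.1 hc2
          have h3 : c = ⟨y, hy1⟩ := El.ext h1
          rw [← h2, ← h3]) (x ∩ y0) hDX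
    have hpu : ∀ c : El C.B, c ≤ h ⊤ → ZFSet.pair c.val (h.proj c).val ∈ g2pre h.toMor := by
      intro c hc
      unfold g2pre
      rw [ZFSet.mem_range]
      exact ⟨⟨c, hc⟩, rfl⟩
    -- values of `x ∩ y0`
    have hval : ∀ w, F.σ (x ∩ y0) w ≠ ⊥ → ∃ c : El C.B, c ≤ h ⊤ ∧ c.val = w ∧
        F.σ (x ∩ y0) w ≤ F.σ u (h.proj c).val := by
      intro w hw
      obtain ⟨h1, h2⟩ := ZFSet.mem_sep.1 (hu2 w hw)
      refine ⟨⟨w, h1⟩, El.le_iff.2 h2, rfl, ?_⟩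
      exact hu3 _ _ (hpu ⟨w, h1⟩ (El.le_iff.2 h2))
    have huD : ZFSet.pair u (x ∩ y0) ∈ F.h' := by
      obtain ⟨w, hw⟩ := g2_pick hM hDN le_rfl hb
      have hw2 : F.σ (x ∩ y0) w ≠ ⊥ := g2_mono inf_le_right hw
      obtain ⟨c, hc1, hc2, hc3⟩ := hval w hw2
      have h3 : F.σ (ZFSet.pair u (x ∩ y0)) (ZFSet.pair (h.proj c).val w) ≠ ⊥ := by
        refine g2_mono ((hAP1 u huN _ hDN).2.1 _ _) (g2_mono ?_ hw2)
        exact le_inf hc3 le_rfl
      refine (kmem F.kh h3).2 ((g2_pair h.toMor).2 ⟨h.proj c, rfl, ?_⟩)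
      rw [← hc2]
      congr 1
      exact hproj c hc1
    have hcom := F.com _ _ huD hDG
    show h (F.σ x z) ⊓ h F.b ≤ mkEl C.B z
    refine inf_le_left.trans ?_
    by_cases hxz : F.σ x z = ⊥
    · rw [hxz]
      have : h ⊥ = ⊥ := hbot
      rw [this]
      exact bot_le
    have hzC : z ∈ C.B := (kmem F.kC hxz).1 (F.gen.sub hx)
    have h1 : F.σ x z = ⨆ w, F.σ x z ⊓ F.σ y0 w := by
      rw [← inf_iSup_eq, hM.tot _ hy0N]
      exact (inf_eq_left.2 (leb _ _)).symm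
    have h2 : h (F.σ x z) = ⨆ w, h (F.σ x z ⊓ F.σ y0 w) := by
      conv_lhs => rw [h1]
      exact hiS V _
    rw [h2]
    apply iSup_le
    intro w
    by_cases hw : F.σ x z ⊓ F.σ y0 w = ⊥
    · rw [hw]
      have : h ⊥ = ⊥ := hbot
      rw [this]
      exact bot_le
    have h3 : F.σ x z ⊓ F.σ y0 w ≤ F.σ (x ∩ y0) (z ∩ w) := (hAP3 x hxN y0 hy0N).2 z w
    obtain ⟨c, hc1, hc2, hc3⟩ := hval (z ∩ w) (g2_mono h3 hw)
    have h4 : F.σ x z ⊓ F.σ y0 w ≤ h.proj c := by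
      refine (h3.trans hc3).trans ?_
      refine (hcom _).trans ?_
      rw [g2_mk]
    refine (hmono _ _ h4).trans ?_
    have h5 : h (h.proj c) = c := hproj c hc1
    have h6 : h.toMor.f (h.proj c) = c := h5
    rw [h6]
    unfold mkEl
    rw [dif_pos hzC]
    refine El.le_iff.2 ?_
    rw [hc2]
    intro t ht
    exact (ZFSet.mem_inter.1 ht).1
  · intro z
    exact le_inf inf_le_right inf_le_left

end SF.H35
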