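import Pool.Agent.H35.SF.G4b

/-!
# MP_3b3fc8_lc, part G, module G4: limits
-/

open Ordinal Cardinal Order Set
open scoped ZFSet

namespace SF.H35

open SF

variable {A : ℕ → BA} {f : ∀ n, BMor (A n) (A (n + 1))} {Z : BA} {k : ∀ n, BMor (A n) Z}

namespace Ctx

variable {p : ℕ → V} (c : Ctx f k p)

/-- the invariant of the recursion -/
structure Inv (n : ℕ) (s : El (A n).B × (V → V → El (A n).B)) : Prop where
  ne : s.1 ≠ ⊥
  map : BMap c.N' c.N s.1 s.2
  kn : s.2 c.K' c.K = s.1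
  com : ∀ x ∈ c.Gn n, ∀ z, s.2 x z ≤ mkEl (A n).B z
  sc : ∀ r ∈ c.N', s.1 ≤ (A n).g (acc c.w (ev c.w r c.G))

end Ctx

/-- the tuple of the first elements -/
noncomputable def tup (e : ℕ → V) (u : V) : ℕ → V
  | 0 => ZFSet.pair (e 0) u
  | n + 1 => ZFSet.pair (e (n + 1)) (tup e u n)

variable {p : ℕ → V} {c : Ctx f k p} {vl : V → V}

theorem tup_mem (hAP : T_AP) (E : c.Ev vl) {e : ℕ → V} {u : V} (he : ∀ i, e i ∈ c.N')
    (hu : u ∈ c.N') (n : ℕ) : tup e u n ∈ c.N' := by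
  induction n with
  | zero => exact E.pairN hAP (he 0) hu
  | succ n ih => exact E.pairN hAP (he _) ih

theorem tup_keep (hMB : T_MB) (hAP : T_AP) (E : c.Ev vl) {e : ℕ → V} {u : V}
    (he : ∀ i, e i ∈ c.N') (hu : u ∈ c.N') {B C : V} [IsCBA B] [IsCBA C] (h : Mor B C)
    {b : El B} {d : El C} {σ : V → V → El B} {σ' : V → V → El C}
    (hM : BMap c.N' c.N b σ) (hM' : BMap c.N' c.N d σ') (hb : b ≠ ⊥) (hd : d ≠ ⊥) (n : ℕ)
    (hk : ∀ z, d ⊓ h (σ (tup e u n) z) ≤ σ' (tup e u n) z) :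
    (∀ i ≤ n, ∀ z, d ⊓ h (σ (e i) z) ≤ σ' (e i) z) ∧ ∀ z, d ⊓ h (σ u z) ≤ σ' u z := by
  induction n with
  | zero =>
    obtain ⟨h1, h2⟩ := keep_pair hMB hAP h c.np hM hM' hb hd (he 0) hu hk
    refine ⟨fun i hi => ?_, h2⟩
    obtain rfl : i = 0 := by omega
    exact h1
  | succ n ih =>
    obtain ⟨h1, h2⟩ := keep_pair hMB hAP h c.np hM hM' hb hd (he (n + 1))
      (tup_mem hAP E he hu n) hk
    obtain ⟨h3, h4⟩ := ih h2
    refine ⟨fun i hi => ?_, h4⟩
    rcases Nat.lt_or_ge n i with h5 | h5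
    · obtain rfl : i = n + 1 := by omega
      exact h1
    · exact h3 i h5

theorem g4_step (hMB : T_MB) (hMP : T_MP) (hAP : T_AP) (hAF : T_AF) (hZN : T_ZN) (hNR : T_NR)
    (E : c.Ev vl) (hL : Lim A f Z k)
    (hp : ∀ n, ∀ F : Frame (f n) (p n), ∀ q ∈ F.N', ∃ d σ', IsLift F q d σ')
    {e : ℕ → V} (he : ∀ i, e i ∈ c.N') {q : V} (hq : q ∈ c.N') (n : ℕ)
    (s : El (A n).B × (V → V → El (A n).B)) (hs : c.Inv n s) :
    ∃ s' : El (A (n + 1)).B × (V → V → El (A (n + 1)).B), c.Inv (n + 1) s' ∧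
      (f n).proj s'.1 = s.1 ∧ s'.1 ≤ f n s.1 ∧
      (∀ i ≤ n, ∀ y, s'.2 (e i) y = f n (s.2 (e i) y) ⊓ s'.1) ∧
      ∀ y, s'.2 q y = f n (s.2 q y) ⊓ s'.1 := by
  obtain ⟨kw, kz, -, kn⟩ := c.kn hs.map hs.ne hs.kn
  have hwN : c.w ∈ c.N' := (hs.map.dom _ _ (by rw [kw]; exact hs.ne)).1
  have hKN : c.K' ∈ c.N' := (hs.map.dom _ _ (by rw [hs.kn]; exact hs.ne)).1
  let F : Frame (f n) (p n) :=
    { N' := c.N'
      N := c.N
      b := s.1
      σ := s.2
      w := c.w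
      B' := c.a n
      C' := c.a (n + 1)
      h' := c.fg n
      p' := c.pp n
      G' := c.Gn (n + 1)
      np := c.np
      ne := hs.ne
      map := hs.map
      kw := kw
      kB := (kn n).1
      kC := (kn (n + 1)).1
      kh := (kn n).2.1
      kp := (kn n).2.2.1
      gen := E.gen_n hAP hAF hNR hL (n + 1)
      top := by
        obtain ⟨x, v, h1, h2⟩ := E.topn hAP hAF hL n
        have h3 : x ∈ c.Gn n := (E.mem_Gn hAP).2 ⟨v, h2, h1⟩
        have h4 : x ∈ c.a n := by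
          unfold Ctx.Gn pull at h3
          exact (ZFSet.mem_sep.1 h3).1
        obtain ⟨y, hy⟩ := E.T2 hAF h4
        exact ⟨x, y, hy, (E.mem_Gn hAP).2 ⟨v, h2, (E.T3 hAP hL hy h1).2⟩⟩
      com := by
        intro x y hxy hy z
        obtain ⟨v, hv, h1⟩ := (E.mem_Gn hAP).1 hy
        exact hs.com x ((E.mem_Gn hAP).2 ⟨v, hv, (E.T1 hAP hL hxy h1).2⟩) z
      sc := by
        intro r hr
        obtain ⟨r2, hr2, h1⟩ := E.ev_eq hAP hZN (n + 1) hwN hr
        rw [h1]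
        exact hs.sc r2 hr2 }
  obtain ⟨d, σ', hl⟩ := hp n F (tup e (ZFSet.pair q c.K') n)
    (tup_mem hAP E he (E.pairN hAP hq hKN) n)
  have hfb : f n ⊥ = ⊥ := (hMB _ _ (f n).toMor).2.1
  have hft : f n ⊤ = ⊤ := hL.unit n
  have hd0 : d ≠ ⊥ := by
    intro h
    apply hs.ne
    apply le_bot_iff.1
    refine hl.proj ⊥ ?_
    rw [h]
    exact bot_le
  have hle : d ≤ f n s.1 := hl.le
  obtain ⟨h1, h2⟩ := tup_keep hMB hAP E he (E.pairN hAP hq hKN) (f n).toMor hs.map hl.map hs.ne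
    hd0 n hl.keep
  obtain ⟨h3, h4⟩ := keep_pair hMB hAP (f n).toMor c.np hs.map hl.map hs.ne hd0 hq hKN h2
  obtain ⟨hP1, hP2, -⟩ := hMP _ _ (f n).toMor
  refine ⟨(d, σ'), ⟨hd0, hl.map, ?_, hl.com, ?_⟩, ?_, hle, ?_, ?_⟩
  · refine le_antisymm (ga_le hl.map _ _) ?_
    have h5 := h4 c.K
    have h6 : (f n).toMor.f (s.2 c.K' c.K) = f n s.1 := by rw [hs.kn]
    rw [h6, inf_eq_left.2 hle] at h5
    exact h5
  · intro r hr
    have h5 : f n s.1 ≤ f n ((A n).g (acc c.w (ev c.w r c.G))) :=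
      (hMB _ _ (f n).toMor).1 _ _ (hs.sc r hr)
    have h6 : f n ((A n).g (acc c.w (ev c.w r c.G))) =
        (A (n + 1)).g (acc c.w (ev c.w r c.G)) ⊓ f n ⊤ := (f n).base _
    rw [h6, hft, inf_top_eq] at h5
    exact hle.trans h5
  · have ht : d ≤ (f n).toMor.f ⊤ := by
      have : (f n).toMor.f ⊤ = ⊤ := hft
      rw [this]
      exact le_top
    refine le_antisymm ((hP1 d s.1 ht).2 hle) ?_
    exact hl.proj _ (hP2 d ht)
  · intro i hi y
    exact keep_eq hMB (f n).toMor hs.map hl.map hle (he i) (h1 i hi) y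
  · intro y
    exact keep_eq hMB (f n).toMor hs.map hl.map hle hq h3 y

theorem g4_fin (hMB : T_MB) (hMP : T_MP) (hAM : T_AM) (hAP : T_AP) (hAF : T_AF) (hAD : T_AD)
    (hZN : T_ZN) (hNR : T_NR) (hGL : T_GL) (E : c.Ev vl) (hL : Lim A f Z k)
    (hp : ∀ n, ∀ F : Frame (f n) (p n), ∀ q ∈ F.N', ∃ d σ', IsLift F q d σ')
    {q : V} (hq : q ∈ c.N') (h0 : c.Inv 0 (c.b0, c.σ0)) :
    ∃ (d : El Z.B) (σ' : V → V → El Z.B), d ≤ k 0 c.b0 ∧ (k 0).proj d = c.b0 ∧
      BMap c.N' c.N d σ' ∧ (∀ x ∈ c.G, ∀ z, σ' x z ≤ mkEl Z.B z) ∧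
      ∀ z, d ⊓ k 0 (c.σ0 q z) ≤ σ' q z := by
  classical
  obtain ⟨e, he⟩ := c.np.ctb.exists_eq_range ⟨q, hq⟩
  have heN : ∀ i, e i ∈ c.N' := fun i => by
    have : e i ∈ (c.N' : Set V) := by rw [he]; exact ⟨i, rfl⟩
    exact this
  have hsur : ∀ x ∈ c.N', ∃ i, e i = x := by
    intro x hx
    have : x ∈ (c.N' : Set V) := hx
    rw [he] at this
    exact this
  choose g hg1 hg2 hg3 hg4 hg5 using fun n s hs =>
    g4_step hMB hMP hAP hAF hZN hNR E hL hp heN hq n s hs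
  let st : ∀ n, {s : El (A n).B × (V → V → El (A n).B) // c.Inv n s} := fun n =>
    Nat.rec ⟨(c.b0, c.σ0), h0⟩ (fun n s => ⟨g n s.1 s.2, hg1 n s.1 s.2⟩) n
  let b : ∀ n, El (A n).B := fun n => (st n).1.1
  let σ : ∀ n, V → V → El (A n).B := fun n => (st n).1.2
  have hI : ∀ n, c.Inv n (b n, σ n) := fun n => (st n).2
  have q2 : ∀ n, (f n).proj (b (n + 1)) = b n := fun n => hg2 n (st n).1 (st n).2
  have q3 : ∀ n, b (n + 1) ≤ f n (b n) := fun n => hg3 n (st n).1 (st n).2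
  have q4 : ∀ n, ∀ i ≤ n, ∀ y, σ (n + 1) (e i) y = f n (σ n (e i) y) ⊓ b (n + 1) :=
    fun n => hg4 n (st n).1 (st n).2
  have q5 : ∀ n, ∀ y, σ (n + 1) q y = f n (σ n q y) ⊓ b (n + 1) :=
    fun n => hg5 n (st n).1 (st n).2
  have hth : Thr f b := ⟨fun n => (hI n).ne, q2⟩
  obtain ⟨hd0, hdp⟩ := hL.thr b hth
  set d : El Z.B := ⨅ n, k n (b n) with hd
  have hdk : ∀ n, d ≤ k n (b n) := fun n => iInf_le (fun n => (k n) (b n)) n
  obtain ⟨σ', hM', hσ'⟩ := hGL A f Z k hL.comm c.N' c.N b d σ e hsur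
    (fun n => (hI n).map) hdk (fun n i hi y => q4 n i hi y)
  have hkk : ∀ n x, k (n + 1) (f n x) = k n x := hL.comm
  -- the value of `q`
  have hkq : ∀ m z, k m (σ m q z) ⊓ d = k 0 (σ 0 q z) ⊓ d := by
    intro m z
    induction m with
    | zero => rfl
    | succ m ih =>
      rw [← ih, q5 m z]
      have h1 : k (m + 1) (f m (σ m q z) ⊓ b (m + 1)) =
          k (m + 1) (f m (σ m q z)) ⊓ k (m + 1) (b (m + 1)) := (k (m + 1)).inf _ _
      rw [h1, hkk, inf_assoc, inf_eq_right.2 (hdk (m + 1))]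
  -- known elements
  have known : ∀ {x y : V}, (∀ n, σ n x y = b n) → x ∈ c.N' → σ' x y = d := by
    intro x y h hx
    obtain ⟨i, rfl⟩ := hsur x hx
    rw [hσ' i i le_rfl y, h i]
    exact inf_eq_right.2 (hdk i)
  have kz : σ' c.z Z.B = d := known (fun n => (c.kn (hI n).map (hI n).ne (hI n).kn).2.1) E.zN
  have kcls : σ' c.cls (CLS f k) = d :=
    known (fun n => (c.kn (hI n).map (hI n).ne (hI n).kn).2.2.1) E.clsN
  have kmem : ∀ {x X X2 y : V}, σ' X X2 = d → σ' x y ≠ ⊥ → (x ∈ X ↔ y ∈ X2) := by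
    intro x X X2 y hX hxy
    refine (hAM Z.B c.N' c.N d σ' c.np hM' x y X X2 ?_).1
    rw [hX, inf_eq_left.2 (ga_le hM' x y)]
    exact hxy
  obtain ⟨hP1, hP2, -⟩ := hMP _ _ (k 0).toMor
  refine ⟨d, σ', hdk 0, hdp 0, hM', ?_, ?_⟩
  · intro x hx z
    have hxz : x ∈ c.z := c.gen.sub hx
    by_cases hxz0 : σ' x z = ⊥
    · rw [hxz0]; exact bot_le
    have hzZ : z ∈ Z.B := (kmem kz hxz0).1 hxz
    obtain ⟨y, hycls, hyG, hyx⟩ := E.exists_cls hAP hAD hZN hL hx
    have hyz : y ∈ c.z := c.gen.sub hyG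
    have hyN : y ∈ c.N' := E.tr _ E.zN _ hyz
    obtain ⟨i, hi⟩ := hsur y hyN
    -- the bound at the level `m`
    have lev : ∀ m, i ≤ m → ∀ u : El Z.B, σ' y u.val ≤ k m ((k m).proj u) := by
      intro m hm u
      rw [← hi, hσ' m i hm, hi]
      refine inf_le_left.trans ?_
      refine (hMB _ _ (k m).toMor).1 _ _ ?_
      obtain ⟨-, kz2, -, kn2⟩ := c.kn (hI m).map (hI m).ne (hI m).kn
      obtain ⟨x2, v, h1, h2, h3, h4, h5⟩ := E.T4 (m := m) hAP hAF hMP hL hyz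
      obtain ⟨-, x3, -, g1, g2, g3⟩ := hAF _ c.N' c.N (b m) (σ m) c.np (hI m).map (hI m).ne
        (c.jg m) (pgr (k m).toMor) c.z Z.B (kn2 m).2.2.2.2.2 kz2 (ga_pfun _) y hyz
      obtain rfl : x2 = x3 := (g1 x2).1 h1
      have h6 := g3 _ _ ((ga_pgr (k m).toMor).2 ⟨u, rfl, rfl⟩)
      refine h6.trans ?_
      have h7 : x2 ∈ c.Gn m :=
        (E.mem_Gn hAP).2 ⟨v, c.gen.up y hyG v h4 h5, h3⟩
      have h8 := (hI m).com x2 h7 ((k m).proj u).val
      rw [ga_mk] at h8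
      exact h8
    have hyu : ∀ u : El Z.B, σ' y u.val ≤ u := by
      intro u
      by_cases h1 : σ' y u.val = ⊥
      · rw [h1]; exact bot_le
      have h2 : u.val ∈ CLS f k := (kmem kcls h1).1 hycls
      obtain ⟨-, t, ht, h3⟩ := ZFSet.mem_sep.1 h2
      obtain ⟨-, h4⟩ := hL.thr t ht
      have h5 : (⨅ n, k n (t n)) = u := El.ext h3
      rw [h5] at h4
      have h6 : ∀ m, i ≤ m → σ' y u.val ≤ k m (t m) := by
        intro m hm
        have := lev m hm u
        rwa [h4 m] at this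
      have hanti : ∀ m, k (m + 1) (t (m + 1)) ≤ k m (t m) := by
        intro m
        have h7 : t (m + 1) ≤ f m (t m) := by
          have h8 := (hMP _ _ (f m).toMor).2.1 (t (m + 1)) (by
            have : (f m).toMor.f ⊤ = ⊤ := hL.unit m
            rw [this]; exact le_top)
          have h9 : (f m).toMor.proj (t (m + 1)) = t m := ht.2 m
          rw [h9] at h8
          exact h8
        have h8 : k (m + 1) (t (m + 1)) ≤ k (m + 1) (f m (t m)) :=
          (hMB _ _ (k (m + 1)).toMor).1 _ _ h7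
        rw [hkk] at h8
        exact h8
      have hanti2 : ∀ m l, m ≤ l → k l (t l) ≤ k m (t m) := by
        intro m l hml
        induction hml with
        | refl => exact le_rfl
        | step _ ih => exact (hanti _).trans ih
      conv_rhs => rw [← h5]
      apply le_iInf
      intro m
      rcases le_total i m with h7 | h7
      · exact h6 m h7
      · exact (h6 i le_rfl).trans (hanti2 m i h7)
    have h1 : σ' x z = ⨆ u, σ' x z ⊓ σ' y u := by
      rw [← inf_iSup_eq, hM'.tot y hyN]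
      exact (inf_eq_left.2 (ga_le hM' _ _)).symm
    rw [h1]
    apply iSup_le
    intro u
    by_cases h2 : σ' x z ⊓ σ' y u = ⊥
    · rw [h2]; exact bot_le
    have h3 : y ⊆ x ↔ u ⊆ z := by
      refine (hAM Z.B c.N' c.N d σ' c.np hM' y u x z ?_).2.2.1
      rw [inf_comm]
      exact h2
    have h4 : σ' y u ≠ ⊥ := ga_mono inf_le_right h2
    have huZ : u ∈ Z.B := (kmem kz h4).1 hyz
    refine inf_le_right.trans ((hyu ⟨u, huZ⟩).trans ?_)
    unfold mkEl
    rw [dif_pos hzZ]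
    exact El.le_iff.2 (h3.1 hyx)
  · intro z
    obtain ⟨i, hi⟩ := hsur q hq
    have h1 : σ' q z = k i (σ i q z) ⊓ d := by
      have := hσ' i i le_rfl z
      rwa [hi] at this
    rw [h1, hkq i z, inf_comm]
    exact le_rfl

theorem g4_zero (hMB : T_MB) (hMP : T_MP) (hAM : T_AM) (hAP : T_AP) (hAF : T_AF) (hAD : T_AD)
    (hAK : T_AK) (hZN : T_ZN) (hNR : T_NR) (hGL : T_GL) (hL : Lim A f Z k)
    (hG : ∀ n, Good (f n)) : Good (k 0) := by
  choose p hp using hG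
  refine ⟨ZFSet.pair (CLS f k) (sq fun n => ZFSet.pair (A n).B (ZFSet.pair (f n).gr
    (ZFSet.pair (p n) (ZFSet.pair (k n).gr (ZFSet.pair (prm (k n).toMor)
      (pgr (k n).toMor)))))), ?_⟩
  intro F q hq
  have h1 := kn_pair' hAP F.np F.map F.ne F.kw (kn_pair' hAP F.np F.map F.ne F.kC F.kp)
  obtain ⟨cls, a, fg, pp, kg, pm, jg, hc⟩ := codes hAP hAF hAK F.np F.map F.ne h1
  -- the codes at the level `0`
  obtain ⟨vl, hvl⟩ := exists_Vl hAM hAP F.np F.map F.ne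
  have dm : ∀ {x y}, F.σ x y = F.b → x ∈ F.N' := fun {x y} h =>
    (F.map.dom x y (by rw [h]; exact F.ne)).1
  obtain ⟨-, -, -, h4⟩ := hc F.map F.ne h1
  have e1 : kg 0 = F.h' := by
    rw [hvl.eq _ (dm (h4 0).2.2.2.1) _ (dm F.kh), hvl.known _ _ (h4 0).2.2.2.1,
      hvl.known _ _ F.kh]
  let c : Ctx f k p :=
    { N' := F.N'
      N := F.N
      w := F.w
      z := F.C'
      G := F.G'
      K' := _
      K := _
      cls := cls
      a := a
      fg := fg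
      pp := pp
      kg := kg
      pm := pm
      jg := jg
      b0 := F.b
      σ0 := F.σ
      np := F.np
      kn := fun {D} _ {c} {τ} h h2 h3 => hc h h2 h3
      ne0 := F.ne
      map0 := F.map
      kn0 := h1
      gen := F.gen
      top := by rw [e1]; exact F.top }
  obtain ⟨vl2, E⟩ := c.exists_Ev hAM hAP
  have h0 : c.Inv 0 (c.b0, c.σ0) := by
    refine ⟨F.ne, F.map, h1, ?_, F.sc⟩
    intro x hx z
    obtain ⟨y, hy, hxy⟩ := (E.mem_Gn hAP).1 hx
    refine F.com x y ?_ hy z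
    have : ZFSet.pair x y ∈ kg 0 := hxy
    rwa [e1] at this
  obtain ⟨d, σ', g1, g2, g3, g4, g5⟩ := g4_fin hMB hMP hAM hAP hAF hAD hZN hNR hGL E hL
    (fun n F q hq => hp n F q hq) hq h0
  refine ⟨d, σ', g1, ?_, g3, g4, g5⟩
  intro x hx
  have h5 := (hMP _ _ (k 0).toMor).1 d x (by
    have : (k 0).toMor.f ⊤ = ⊤ := hL.kunit 0
    rw [this]; exact le_top)
  have h6 : (k 0).toMor.proj d = F.b := g2
  rw [h6] at h5
  exact h5.2 hx

/-- the shifted limit -/
theorem lim_shift (hMP : T_MP) (hMB : T_MB) (hL : Lim A f Z k) :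
    Lim (fun n => A (n + 1)) (fun n => f (n + 1)) Z (fun n => k (n + 1)) := by
  have hkk : ∀ n x, k (n + 1) (f n x) = k n x := hL.comm
  have hdec : ∀ t : ∀ n, El (A n).B, Thr f t → ∀ m, k (m + 1) (t (m + 1)) ≤ k m (t m) := by
    intro t ht m
    have h7 : t (m + 1) ≤ f m (t m) := by
      have h8 := (hMP _ _ (f m).toMor).2.1 (t (m + 1)) (by
        have : (f m).toMor.f ⊤ = ⊤ := hL.unit m
        rw [this]; exact le_top)
      have h9 : (f m).toMor.proj (t (m + 1)) = t m := ht.2 m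
      rw [h9] at h8
      exact h8
    have h8 : k (m + 1) (t (m + 1)) ≤ k (m + 1) (f m (t m)) :=
      (hMB _ _ (k (m + 1)).toMor).1 _ _ h7
    rw [hkk] at h8
    exact h8
  have hinf : ∀ t : ∀ n, El (A n).B, Thr f t →
      (⨅ n, k (n + 1) (t (n + 1))) = ⨅ n, k n (t n) := by
    intro t ht
    refine le_antisymm (le_iInf fun m => ?_) (le_iInf fun m => iInf_le _ (m + 1))
    cases m with
    | zero => exact (iInf_le (fun n => k (n + 1) (t (n + 1))) 0).trans (hdec t ht 0)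
    | succ m => exact iInf_le (fun n => k (n + 1) (t (n + 1))) m
  refine ⟨fun n => hL.unit (n + 1), fun n => hL.inj (n + 1), fun n => hL.kunit (n + 1),
    fun n => hL.comm (n + 1), ?_, ?_⟩
  · intro t ht
    let t2 : ∀ n, El (A n).B := fun n => match n with
      | 0 => (f 0).proj (t 0)
      | n + 1 => t n
    have h1 : Thr f t2 := by
      constructor
      · intro n
        cases n with
        | zero =>
          intro h
          apply ht.1 0
          have h2 := (hMP _ _ (f 0).toMor).2.2.2.1 (t 0) (by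
            have : (f 0).toMor.f ⊤ = ⊤ := hL.unit 0
            rw [this]; exact le_top)
          exact h2.1 h
        | succ n => exact ht.1 n
      · intro n
        cases n with
        | zero => rfl
        | succ n => exact ht.2 n
    have h2 := hL.thr t2 h1
    rw [← hinf t2 h1] at h2
    exact ⟨h2.1, fun n => h2.2 (n + 1)⟩
  · intro z hz
    obtain ⟨t, ht, h1⟩ := hL.dns z hz
    refine ⟨fun n => t (n + 1), ⟨fun n => ht.1 (n + 1), fun n => ht.2 (n + 1)⟩, ?_⟩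
    have h2 := hinf t ht
    rw [← h2] at h1
    exact h1

theorem g4 (hMB : T_MB) (hMP : T_MP) (hAM : T_AM) (hAP : T_AP) (hAF : T_AF) (hAD : T_AD)
    (hAK : T_AK) (hZN : T_ZN) (hNR : T_NR) (hGL : T_GL) : T_G4 := by
  intro A f Z k hL hG n
  induction n generalizing A with
  | zero => exact g4_zero hMB hMP hAM hAP hAF hAD hAK hZN hNR hGL hL hG
  | succ n ih =>
    exact ih (fun n => A (n + 1)) (fun n => f (n + 1)) (fun n => k (n + 1))
      (lim_shift hMP hMB hL) (fun n => hG (n + 1))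

end SF.H35
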