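import Pool.Agent.H45.SF.GT
import Pool.Agent.H9.SF.Bas

/-!
# MP_3b3fc8_lc, part G, module G4: limits. Auxiliary lemmas
-/

open Ordinal Cardinal Order Set
open scoped ZFSet

namespace SF.H35

open SF

theorem ga_le {B : V} [IsCBA B] {N' N : V} {b : El B} {σ : V → V → El B}
    (hM : BMap N' N b σ) (x y : V) : σ x y ≤ b := by
  by_cases h : σ x y = ⊥
  · rw [h]; exact bot_le
  · rw [← hM.tot x (hM.dom x y h).1]
    exact le_iSup (fun y => σ x y) y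

theorem ga_pick {B : V} [IsCBA B] {N' N : V} {b : El B} {σ : V → V → El B}
    (hM : BMap N' N b σ) {x : V} (hx : x ∈ N') {c : El B} (hc : c ≤ b) (hc0 : c ≠ ⊥) :
    ∃ y, c ⊓ σ x y ≠ ⊥ := by
  by_contra hcon
  simp only [not_exists, not_not] at hcon
  apply hc0
  have h1 : c ⊓ ⨆ y, σ x y = ⊥ := by
    rw [inf_iSup_eq]
    simp [hcon]
  rw [hM.tot x hx, inf_eq_left.2 hc] at h1
  exact h1

theorem ga_mono {B : V} [IsCBA B] {x y : El B} (h : x ≤ y) (hx : x ≠ ⊥) : y ≠ ⊥ :=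
  fun h2 => hx (le_bot_iff.1 (h2 ▸ h))

theorem ga_mk {B : V} [IsCBA B] (x : El B) : mkEl B x.val = x := by
  unfold mkEl
  rw [dif_pos x.mem]

theorem ga_pair {B C : V} [IsCBA B] [IsCBA C] (h : Mor B C) {x y : V} :
    ZFSet.pair x y ∈ h.gr ↔ ∃ u : El B, u.val = x ∧ (h u).val = y := by
  unfold Mor.gr
  rw [ZFSet.mem_range]
  constructor
  · rintro ⟨u, hu⟩
    obtain ⟨h1, h2⟩ := ZFSet.pair_inj.1 hu
    exact ⟨u, h1, h2⟩
  · rintro ⟨u, h1, h2⟩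
    exact ⟨u, by rw [h1, h2]⟩

theorem ga_fun {B C : V} [IsCBA B] [IsCBA C] (h : Mor B C) :
    ∀ y ∈ B, ∃! z, ZFSet.pair y z ∈ h.gr := by
  intro y hy
  refine ⟨(h ⟨y, hy⟩).val, (ga_pair h).2 ⟨⟨y, hy⟩, rfl, rfl⟩, ?_⟩
  intro z hz
  obtain ⟨u, hu1, hu2⟩ := (ga_pair h).1 hz
  have h3 : u = ⟨y, hy⟩ := El.ext hu1
  rw [← hu2, h3]

/-- the graph of the projection -/
noncomputable def pgr {B C : V} [IsCBA B] [IsCBA C] (h : Mor B C) : V :=
  ZFSet.range fun x : El C => ZFSet.pair x.val (h.proj x).val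

theorem ga_pgr {B C : V} [IsCBA B] [IsCBA C] (h : Mor B C) {x y : V} :
    ZFSet.pair x y ∈ pgr h ↔ ∃ u : El C, u.val = x ∧ (h.proj u).val = y := by
  unfold pgr
  rw [ZFSet.mem_range]
  constructor
  · rintro ⟨u, hu⟩
    obtain ⟨h1, h2⟩ := ZFSet.pair_inj.1 hu
    exact ⟨u, h1, h2⟩
  · rintro ⟨u, h1, h2⟩
    exact ⟨u, by rw [h1, h2]⟩

theorem ga_pfun {B C : V} [IsCBA B] [IsCBA C] (h : Mor B C) :
    ∀ y ∈ C, ∃! z, ZFSet.pair y z ∈ pgr h := by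
  intro y hy
  refine ⟨(h.proj ⟨y, hy⟩).val, (ga_pgr h).2 ⟨⟨y, hy⟩, rfl, rfl⟩, ?_⟩
  intro z hz
  obtain ⟨u, hu1, hu2⟩ := (ga_pgr h).1 hz
  have h3 : u = ⟨y, hy⟩ := El.ext hu1
  rw [← hu2, h3]

/-- the code of a sequence -/
noncomputable def sq (S : ℕ → V) : V :=
  ZFSet.range fun n : ℕ => ZFSet.pair (n : Ordinal.{0}).toZFSet (S n)

theorem ga_sq (S : ℕ → V) {x y : V} :
    ZFSet.pair x y ∈ sq S ↔ ∃ n : ℕ, (n : Ordinal.{0}).toZFSet = x ∧ S n = y := by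
  unfold sq
  rw [ZFSet.mem_range]
  constructor
  · rintro ⟨u, hu⟩
    obtain ⟨h1, h2⟩ := ZFSet.pair_inj.1 hu
    exact ⟨u, h1, h2⟩
  · rintro ⟨u, h1, h2⟩
    exact ⟨u, by rw [h1, h2]⟩

theorem ga_nat_mem (n : ℕ) : (n : Ordinal.{0}).toZFSet ∈ (ω : Ordinal.{0}).toZFSet := by
  rw [Ordinal.mem_toZFSet_iff]
  exact ⟨n, Ordinal.nat_lt_omega0 n, rfl⟩

theorem ga_sqfun (S : ℕ → V) :
    ∀ y ∈ (ω : Ordinal.{0}).toZFSet, ∃! z, ZFSet.pair y z ∈ sq S := by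
  intro y hy
  rw [Ordinal.mem_toZFSet_iff] at hy
  obtain ⟨a, ha, rfl⟩ := hy
  obtain ⟨n, rfl⟩ := Ordinal.lt_omega0.1 ha
  refine ⟨S n, (ga_sq S).2 ⟨n, rfl, rfl⟩, ?_⟩
  intro z hz
  obtain ⟨m, hm1, hm2⟩ := (ga_sq S).1 hz
  have h1 : (m : Ordinal.{0}) = (n : Ordinal.{0}) := Ordinal.toZFSet_injective hm1
  have h2 : m = n := by exact_mod_cast h1
  rw [← hm2, h2]

/-! ## Evaluation of all elements -/

theorem exists_vl {B : V} [IsCBA B] {N' N : V} {b : El B} {σ : V → V → El B}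
    (hM : BMap N' N b σ) (hct : (N' : Set V).Countable) (hb : b ≠ ⊥) :
    ∃ vl : V → V, ∀ s : Finset V, (∀ x ∈ s, x ∈ N') → (s.inf fun x => σ x (vl x)) ≠ ⊥ := by
  classical
  by_cases hne : (N' : Set V).Nonempty
  swap
  · refine ⟨fun x => x, fun s hs => ?_⟩
    have : s = ∅ := by
      apply Finset.eq_empty_of_forall_notMem
      intro x hx
      exact hne ⟨x, hs x hx⟩
    rw [this, Finset.inf_empty]
    exact ga_mono le_top hb
  obtain ⟨e, he⟩ := hct.exists_eq_range hne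
  have heN : ∀ i, e i ∈ N' := fun i => by
    have : e i ∈ (N' : Set V) := by rw [he]; exact ⟨i, rfl⟩
    exact this
  have step : ∀ (i : ℕ) (c : {c : El B // c ≤ b ∧ c ≠ ⊥}), ∃ y, c.1 ⊓ σ (e i) y ≠ ⊥ :=
    fun i c => ga_pick hM (heN i) c.2.1 c.2.2
  choose g hg using step
  let C : ℕ → {c : El B // c ≤ b ∧ c ≠ ⊥} := fun n => Nat.rec ⟨b, le_rfl, hb⟩
    (fun i c => ⟨c.1 ⊓ σ (e i) (g i c), inf_le_left.trans c.2.1, hg i c⟩) n
  have hC : ∀ i, (C (i + 1)).1 = (C i).1 ⊓ σ (e i) (g i (C i)) := fun i => rfl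
  have hanti : ∀ i j, i ≤ j → (C j).1 ≤ (C i).1 := by
    intro i j hij
    induction hij with
    | refl => exact le_rfl
    | step _ ih =>
      rw [hC]
      exact inf_le_left.trans ih
  have hval : ∀ x ∈ N', ∃ i, e i = x := by
    intro x hx
    have : x ∈ (N' : Set V) := hx
    rw [he] at this
    exact this
  let ix : V → ℕ := fun x => if h : ∃ i, e i = x then Nat.find h else 0
  have hix : ∀ x ∈ N', e (ix x) = x := by
    intro x hx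
    have h := hval x hx
    simp only [ix, dif_pos h]
    exact Nat.find_spec h
  refine ⟨fun x => g (ix x) (C (ix x)), fun s hs => ?_⟩
  obtain ⟨m, hm⟩ : ∃ m, ∀ x ∈ s, ix x < m := by
    refine ⟨s.sup ix + 1, fun x hx => ?_⟩
    exact Nat.lt_succ_of_le (Finset.le_sup (f := ix) hx)
  refine ga_mono ?_ (C m).2.2
  apply Finset.le_inf
  intro x hx
  have h1 := hanti (ix x + 1) m (hm x hx)
  rw [hC, hix x (hs x hx)] at h1
  exact h1.trans inf_le_right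

/-- the properties of an evaluation -/
structure Vl (N' : V) {B : V} [IsCBA B] (b : El B) (σ : V → V → El B) (vl : V → V) : Prop where
  mem : ∀ x ∈ N', ∀ y ∈ N', (x ∈ y ↔ vl x ∈ vl y)
  eq : ∀ x ∈ N', ∀ y ∈ N', (x = y ↔ vl x = vl y)
  sub : ∀ x ∈ N', ∀ y ∈ N', (x ⊆ y ↔ vl x ⊆ vl y)
  emp : ∀ x ∈ N', (x = ∅ ↔ vl x = ∅)
  pair : ∀ x ∈ N', ∀ y ∈ N', vl (ZFSet.pair x y) = ZFSet.pair (vl x) (vl y)
  inter : ∀ x ∈ N', ∀ y ∈ N', vl (x ∩ y) = vl x ∩ vl y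
  known : ∀ x y, σ x y = b → vl x = y

theorem exists_Vl (hAM : T_AM) (hAP : T_AP) {B : V} [IsCBA B] {N' N : V} {b : El B}
    {σ : V → V → El B} (hN : NP N' N) (hM : BMap N' N b σ) (hb : b ≠ ⊥) :
    ∃ vl, Vl N' b σ vl := by
  classical
  obtain ⟨vl, hvl⟩ := exists_vl hM hN.ctb hb
  obtain ⟨hAP1, hAP2, hAP3, htr, -, -⟩ := hAP B N' N b σ hN hM hb
  have h1 : ∀ x ∈ N', σ x (vl x) ≠ ⊥ := by
    intro x hx
    have := hvl {x} (by simpa using hx)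
    rwa [Finset.inf_singleton] at this
  have h2 : ∀ x ∈ N', ∀ y ∈ N', σ x (vl x) ⊓ σ y (vl y) ≠ ⊥ := by
    intro x hx y hy
    have := hvl {x, y} (by
      intro z hz
      simp only [Finset.mem_insert, Finset.mem_singleton] at hz
      rcases hz with rfl | rfl <;> assumption)
    rwa [Finset.inf_insert, Finset.inf_singleton] at this
  have h3 : ∀ x ∈ N', ∀ y ∈ N', ∀ z ∈ N',
      σ x (vl x) ⊓ (σ y (vl y) ⊓ σ z (vl z)) ≠ ⊥ := by
    intro x hx y hy z hz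
    have := hvl {x, y, z} (by
      intro t ht
      simp only [Finset.mem_insert, Finset.mem_singleton] at ht
      rcases ht with rfl | rfl | rfl <;> assumption)
    rwa [Finset.inf_insert, Finset.inf_insert, Finset.inf_singleton] at this
  refine ⟨vl, ?_, ?_, ?_, ?_, ?_, ?_, ?_⟩
  · intro x hx y hy
    exact (hAM B N' N b σ hN hM _ _ _ _ (h2 x hx y hy)).1
  · intro x hx y hy
    exact (hAM B N' N b σ hN hM _ _ _ _ (h2 x hx y hy)).2.1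
  · intro x hx y hy
    exact (hAM B N' N b σ hN hM _ _ _ _ (h2 x hx y hy)).2.2.1
  · intro x hx
    exact (hAM B N' N b σ hN hM _ _ _ _ (h2 x hx x hx)).2.2.2
  · intro x hx y hy
    obtain ⟨g1, g2, -⟩ := hAP1 x hx y hy
    by_contra hcon
    refine h3 _ g1 x hx y hy (le_bot_iff.1 ?_)
    rw [← hM.fn (ZFSet.pair x y) _ _ hcon]
    exact inf_le_inf le_rfl (g2 _ _)
  · intro x hx y hy
    obtain ⟨g1, g2⟩ := hAP3 x hx y hy
    by_contra hcon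
    refine h3 _ g1 x hx y hy (le_bot_iff.1 ?_)
    rw [← hM.fn (x ∩ y) _ _ hcon]
    exact inf_le_inf le_rfl (g2 _ _)
  · intro x y hxy
    have hx : x ∈ N' := (hM.dom x y (by rw [hxy]; exact hb)).1
    by_contra hcon
    refine h1 x hx (le_bot_iff.1 ?_)
    rw [← hM.fn x _ _ hcon, hxy]
    exact le_inf le_rfl (ga_le hM _ _)

/-! ## Keeping the values -/

theorem keep_pair (hMB : T_MB) (hAP : T_AP) {A C : V} [IsCBA A] [IsCBA C] (h : Mor A C)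
    {N' N : V} {b : El A} {c : El C} {σ : V → V → El A} {σ' : V → V → El C} (hN : NP N' N)
    (hM : BMap N' N b σ) (hM' : BMap N' N c σ') (hb : b ≠ ⊥) (hc : c ≠ ⊥)
    {x y : V} (hx : x ∈ N') (hy : y ∈ N')
    (hk : ∀ z, c ⊓ h (σ (ZFSet.pair x y) z) ≤ σ' (ZFSet.pair x y) z) :
    (∀ z, c ⊓ h (σ x z) ≤ σ' x z) ∧ ∀ z, c ⊓ h (σ y z) ≤ σ' y z := by
  obtain ⟨hmono, -, -, -, -, hiS, -⟩ := hMB A C h
  obtain ⟨-, g2, -⟩ := (hAP A N' N b σ hN hM hb).1 x hx y hy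
  obtain ⟨-, -, g3⟩ := (hAP C N' N c σ' hN hM' hc).1 x hx y hy
  have key : ∀ z1 z2, c ⊓ h (σ x z1 ⊓ σ y z2) ≤ σ' x z1 ⊓ σ' y z2 := by
    intro z1 z2
    have h1 : c ⊓ h (σ x z1 ⊓ σ y z2) ≤ σ' (ZFSet.pair x y) (ZFSet.pair z1 z2) :=
      (inf_le_inf le_rfl (hmono _ _ (g2 z1 z2))).trans (hk _)
    by_cases h2 : σ' (ZFSet.pair x y) (ZFSet.pair z1 z2) = ⊥
    · rw [h2] at h1
      exact h1.trans bot_le
    · obtain ⟨u1, u2, hu, h3⟩ := g3 _ h2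
      obtain ⟨rfl, rfl⟩ := ZFSet.pair_inj.1 hu
      exact h1.trans h3
  constructor
  · intro z
    have h1 : σ x z = ⨆ w, σ x z ⊓ σ y w := by
      rw [← inf_iSup_eq, hM.tot _ hy]
      exact (inf_eq_left.2 (ga_le hM _ _)).symm
    have h2 : h (σ x z) = ⨆ w, h (σ x z ⊓ σ y w) := by
      conv_lhs => rw [h1]
      exact hiS V _
    rw [h2, inf_iSup_eq]
    exact iSup_le fun w => (key z w).trans inf_le_left
  · intro z
    have h1 : σ y z = ⨆ w, σ x w ⊓ σ y z := by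
      rw [← iSup_inf_eq, hM.tot _ hx]
      exact (inf_eq_right.2 (ga_le hM _ _)).symm
    have h2 : h (σ y z) = ⨆ w, h (σ x w ⊓ σ y z) := by
      conv_lhs => rw [h1]
      exact hiS V _
    rw [h2, inf_iSup_eq]
    exact iSup_le fun w => (key w z).trans inf_le_right

theorem keep_eq (hMB : T_MB) {A C : V} [IsCBA A] [IsCBA C] (h : Mor A C)
    {N' N : V} {b : El A} {c : El C} {σ : V → V → El A} {σ' : V → V → El C}
    (hM : BMap N' N b σ) (hM' : BMap N' N c σ') (hcb : c ≤ h b)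
    {x : V} (hx : x ∈ N') (hk : ∀ z, c ⊓ h (σ x z) ≤ σ' x z) (z : V) :
    σ' x z = h (σ x z) ⊓ c := by
  obtain ⟨-, -, -, -, -, hiS, -⟩ := hMB A C h
  refine le_antisymm ?_ ?_
  · have h1 : c = ⨆ w, c ⊓ h (σ x w) := by
      rw [← inf_iSup_eq]
      have h2 : (⨆ w, h (σ x w)) = h b := by
        rw [← hM.tot x hx]
        exact (hiS V _).symm
      rw [h2]
      exact (inf_eq_left.2 hcb).symm
    have h3 : σ' x z = ⨆ w, σ' x z ⊓ (c ⊓ h (σ x w)) := by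
      rw [← inf_iSup_eq, ← h1]
      exact (inf_eq_left.2 (ga_le hM' _ _)).symm
    rw [h3]
    apply iSup_le
    intro w
    by_cases hw : z = w
    · rw [hw, inf_comm c]
      exact inf_le_right
    · have h4 : σ' x z ⊓ (c ⊓ h (σ x w)) ≤ σ' x z ⊓ σ' x w := inf_le_inf le_rfl (hk w)
      rw [hM'.fn x z w hw] at h4
      exact h4.trans bot_le
  · rw [inf_comm]
    exact hk z

/-! ## Known elements -/

theorem kn_pair (hAP : T_AP) {B : V} [IsCBA B] {N' N : V} {b : El B} {σ : V → V → El B}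
    (hN : NP N' N) (hM : BMap N' N b σ) (hb : b ≠ ⊥) {x x2 y y2 : V}
    (h : σ (ZFSet.pair x x2) (ZFSet.pair y y2) = b) : σ x y = b ∧ σ x2 y2 = b := by
  obtain ⟨hAP1, -, -, htr, -, -⟩ := hAP B N' N b σ hN hM hb
  have h1 : ZFSet.pair x x2 ∈ N' := (hM.dom _ _ (by rw [h]; exact hb)).1
  have h2 : ({x, x2} : V) ∈ N' := htr _ h1 (by simp [ZFSet.pair])
  have hx : x ∈ N' := htr _ h2 (by simp)
  have hx2 : x2 ∈ N' := htr _ h2 (by simp)
  obtain ⟨u1, u2, hu, h3⟩ := (hAP1 x hx x2 hx2).2.2 _ (by rw [h]; exact hb)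
  obtain ⟨rfl, rfl⟩ := ZFSet.pair_inj.1 hu
  rw [h] at h3
  exact ⟨le_antisymm (ga_le hM _ _) (h3.trans inf_le_left),
    le_antisymm (ga_le hM _ _) (h3.trans inf_le_right)⟩

theorem kn_pair' (hAP : T_AP) {B : V} [IsCBA B] {N' N : V} {b : El B} {σ : V → V → El B}
    (hN : NP N' N) (hM : BMap N' N b σ) (hb : b ≠ ⊥) {x x2 y y2 : V}
    (h : σ x y = b) (h2 : σ x2 y2 = b) : σ (ZFSet.pair x x2) (ZFSet.pair y y2) = b := by
  obtain ⟨hAP1, -, -, htr, -, -⟩ := hAP B N' N b σ hN hM hb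
  have hx : x ∈ N' := (hM.dom _ _ (by rw [h]; exact hb)).1
  have hx2 : x2 ∈ N' := (hM.dom _ _ (by rw [h2]; exact hb)).1
  refine le_antisymm (ga_le hM _ _) ?_
  have := (hAP1 x hx x2 hx2).2.1 y y2
  rw [h, h2, inf_idem] at this
  exact this

theorem kn_split (hAP : T_AP) {B : V} [IsCBA B] {N' N : V} {b : El B} {σ : V → V → El B}
    (hN : NP N' N) (hM : BMap N' N b σ) (hb : b ≠ ⊥) {z y y2 : V}
    (h : σ z (ZFSet.pair y y2) = b) : ∃ x x2, z = ZFSet.pair x x2 := by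
  obtain ⟨-, hAP2, -, -, -, -⟩ := hAP B N' N b σ hN hM hb
  obtain ⟨x, -, x2, -, h1, -⟩ := hAP2 z y y2 (by rw [h]; exact hb)
  exact ⟨x, x2, h1⟩

/-- the value of a known sequence -/
theorem kn_sq (hAF : T_AF) (hAK : T_AK) {B : V} [IsCBA B] {N' N : V} {b : El B}
    {σ : V → V → El B} (hN : NP N' N) (hM : BMap N' N b σ) (hb : b ≠ ⊥) {s : V} {S : ℕ → V}
    (h : σ s (sq S) = b) (n : ℕ) : ∃ x,
      (∀ x3, ZFSet.pair (n : Ordinal.{0}).toZFSet x3 ∈ s ↔ x3 = x) ∧ σ x (S n) = b := by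
  obtain ⟨k1, -, k3⟩ := hAK B N' N b σ hN hM hb
  obtain ⟨hxN, x, hx, h1, h2, h3⟩ := hAF B N' N b σ hN hM hb s (sq S) _ _ h k3 (ga_sqfun S)
    (n : Ordinal.{0}).toZFSet (ga_nat_mem n)
  refine ⟨x, h1, le_antisymm (ga_le hM _ _) ?_⟩
  have h4 := h3 _ _ ((ga_sq S).2 ⟨n, rfl, rfl⟩)
  rw [(k1 n).2] at h4
  exact h4

end SF.H35
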