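import Pool.Agent.H35.SF.G4a

/-!
# MP_3b3fc8_lc, part G, module G4: limits. The parameters
-/

open Ordinal Cardinal Order Set
open scoped ZFSet

namespace SF.H35

open SF

theorem codes (hAP : T_AP) (hAF : T_AF) (hAK : T_AK) {N' N : V} (hN : NP N' N)
    {B : V} [IsCBA B] {b : El B} {σ : V → V → El B} (hM : BMap N' N b σ) (hb : b ≠ ⊥)
    {w' w z' z p' cl : V} {S1 S2 S3 S4 S5 S6 : ℕ → V}
    (h : σ (ZFSet.pair w' (ZFSet.pair z' p')) (ZFSet.pair w (ZFSet.pair z (ZFSet.pair cl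
      (sq fun n => ZFSet.pair (S1 n) (ZFSet.pair (S2 n) (ZFSet.pair (S3 n)
        (ZFSet.pair (S4 n) (ZFSet.pair (S5 n) (S6 n))))))))) = b) :
    ∃ (cls : V) (a1 a2 a3 a4 a5 a6 : ℕ → V), ∀ {D : V} [IsCBA D] {c : El D} {τ : V → V → El D},
      BMap N' N c τ → c ≠ ⊥ →
      τ (ZFSet.pair w' (ZFSet.pair z' p')) (ZFSet.pair w (ZFSet.pair z (ZFSet.pair cl
        (sq fun n => ZFSet.pair (S1 n) (ZFSet.pair (S2 n) (ZFSet.pair (S3 n)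
          (ZFSet.pair (S4 n) (ZFSet.pair (S5 n) (S6 n))))))))) = c →
      τ w' w = c ∧ τ z' z = c ∧ τ cls cl = c ∧ ∀ n, τ (a1 n) (S1 n) = c ∧ τ (a2 n) (S2 n) = c ∧
        τ (a3 n) (S3 n) = c ∧ τ (a4 n) (S4 n) = c ∧ τ (a5 n) (S5 n) = c ∧ τ (a6 n) (S6 n) = c := by
  have h1 := (kn_pair hAP hN hM hb (kn_pair hAP hN hM hb h).2).2
  obtain ⟨cls, s, rfl⟩ := kn_split hAP hN hM hb h1
  have h2 := (kn_pair hAP hN hM hb h1).2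
  choose x hx hxk using fun n => kn_sq hAF hAK hN hM hb h2 n
  choose a1 r1 e1 using fun n => kn_split hAP hN hM hb (hxk n)
  have k1 : ∀ n, σ (r1 n) _ = b := fun n => by
    have := hxk n
    rw [e1 n] at this
    exact (kn_pair hAP hN hM hb this).2
  choose a2 r2 e2 using fun n => kn_split hAP hN hM hb (k1 n)
  have k2 : ∀ n, σ (r2 n) _ = b := fun n => by
    have := k1 n
    rw [e2 n] at this
    exact (kn_pair hAP hN hM hb this).2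
  choose a3 r3 e3 using fun n => kn_split hAP hN hM hb (k2 n)
  have k3 : ∀ n, σ (r3 n) _ = b := fun n => by
    have := k2 n
    rw [e3 n] at this
    exact (kn_pair hAP hN hM hb this).2
  choose a4 r4 e4 using fun n => kn_split hAP hN hM hb (k3 n)
  have k4 : ∀ n, σ (r4 n) _ = b := fun n => by
    have := k3 n
    rw [e4 n] at this
    exact (kn_pair hAP hN hM hb this).2
  choose a5 a6 e5 using fun n => kn_split hAP hN hM hb (k4 n)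
  refine ⟨cls, a1, a2, a3, a4, a5, a6, ?_⟩
  intro D _ c τ hT hc hk
  obtain ⟨g1, g2⟩ := kn_pair hAP hN hT hc hk
  obtain ⟨g3, g4⟩ := kn_pair hAP hN hT hc g2
  obtain ⟨g5, g6⟩ := kn_pair hAP hN hT hc g4
  refine ⟨g1, g3, g5, fun n => ?_⟩
  obtain ⟨x', hx', hxk'⟩ := kn_sq hAF hAK hN hT hc g6 n
  have h3 : x' = x n := (hx n x').1 ((hx' x').2 rfl)
  rw [h3, e1 n, e2 n, e3 n, e4 n, e5 n] at hxk'
  obtain ⟨j1, l1⟩ := kn_pair hAP hN hT hc hxk'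
  obtain ⟨j2, l2⟩ := kn_pair hAP hN hT hc l1
  obtain ⟨j3, l3⟩ := kn_pair hAP hN hT hc l2
  obtain ⟨j4, l4⟩ := kn_pair hAP hN hT hc l3
  obtain ⟨j5, l5⟩ := kn_pair hAP hN hT hc l4
  exact ⟨j1, j2, j3, j4, j5, l5⟩

variable {A : ℕ → BA} {f : ∀ n, BMor (A n) (A (n + 1))} {Z : BA} {k : ∀ n, BMor (A n) Z}

/-- the set of all limits of threads -/
noncomputable def CLS (f : ∀ n, BMor (A n) (A (n + 1))) (k : ∀ n, BMor (A n) Z) : V :=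
  Z.B.sep fun z => ∃ t, Thr f t ∧ (⨅ n, k n (t n)).val = z

/-- the context of the construction -/
structure Ctx (f : ∀ n, BMor (A n) (A (n + 1))) (k : ∀ n, BMor (A n) Z) (p : ℕ → V) :
    Type 1 where
  (N' N w z G K' K cls : V)
  (a fg pp kg pm jg : ℕ → V)
  (b0 : El (A 0).B)
  (σ0 : V → V → El (A 0).B)
  np : NP N' N
  kn : ∀ {D : V} [IsCBA D] {c : El D} {τ : V → V → El D}, BMap N' N c τ → c ≠ ⊥ → τ K' K = c →
    τ w w1 = c ∧ τ z Z.B = c ∧ τ cls (CLS f k) = c ∧ ∀ n, τ (a n) (A n).B = c ∧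
      τ (fg n) (f n).gr = c ∧ τ (pp n) (p n) = c ∧ τ (kg n) (k n).gr = c ∧
      τ (pm n) (prm (k n).toMor) = c ∧ τ (jg n) (pgr (k n).toMor) = c
  ne0 : b0 ≠ ⊥
  map0 : BMap N' N b0 σ0
  kn0 : σ0 K' K = b0
  gen : NGen N' z G
  top : ∃ x y, ZFSet.pair x y ∈ kg 0 ∧ y ∈ G

namespace Ctx

variable {p : ℕ → V} (c : Ctx f k p)

/-- the generic filter on the code of `A n` -/
noncomputable def Gn (n : ℕ) : V := pull (c.a n) (c.kg n) c.G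

/-- the evaluation with the values of the codes -/
structure Ev (c : Ctx f k p) (vl : V → V) : Prop extends Vl c.N' c.b0 c.σ0 vl where
  tr : ∀ x ∈ c.N', ∀ y ∈ x, y ∈ c.N'
  zN : c.z ∈ c.N'
  clsN : c.cls ∈ c.N'
  aN : ∀ n, c.a n ∈ c.N'
  fN : ∀ n, c.fg n ∈ c.N'
  kN : ∀ n, c.kg n ∈ c.N'
  jN : ∀ n, c.jg n ∈ c.N'
  vz : vl c.z = Z.B
  vcls : vl c.cls = CLS f k
  va : ∀ n, vl (c.a n) = (A n).B
  vf : ∀ n, vl (c.fg n) = (f n).gr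
  vk : ∀ n, vl (c.kg n) = (k n).gr
  vj : ∀ n, vl (c.jg n) = pgr (k n).toMor

theorem exists_Ev (hAM : T_AM) (hAP : T_AP) : ∃ vl, c.Ev vl := by
  obtain ⟨vl, hvl⟩ := exists_Vl hAM hAP c.np c.map0 c.ne0
  obtain ⟨-, -, -, htr, -, -⟩ := hAP _ c.N' c.N c.b0 c.σ0 c.np c.map0 c.ne0
  obtain ⟨h1, h2, h3, h4⟩ := c.kn c.map0 c.ne0 c.kn0
  have dm : ∀ {x y}, c.σ0 x y = c.b0 → x ∈ c.N' := fun {x y} h =>
    (c.map0.dom x y (by rw [h]; exact c.ne0)).1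
  exact ⟨vl, hvl, fun x hx y hy => htr x hx hy, dm h2, dm h3, fun n => dm (h4 n).1,
    fun n => dm (h4 n).2.1, fun n => dm (h4 n).2.2.2.1, fun n => dm (h4 n).2.2.2.2.2,
    hvl.known _ _ h2, hvl.known _ _ h3, fun n => hvl.known _ _ (h4 n).1,
    fun n => hvl.known _ _ (h4 n).2.1, fun n => hvl.known _ _ (h4 n).2.2.2.1,
    fun n => hvl.known _ _ (h4 n).2.2.2.2.2⟩

namespace Ev

variable {c} {vl : V → V} (E : c.Ev vl)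

include E

theorem trp {x y X : V} (hX : X ∈ c.N') (h : ZFSet.pair x y ∈ X) : x ∈ c.N' ∧ y ∈ c.N' := by
  have h1 := E.tr _ hX _ h
  have h2 : ({x, y} : V) ∈ c.N' := E.tr _ h1 _ (by simp [ZFSet.pair])
  exact ⟨E.tr _ h2 _ (by simp), E.tr _ h2 _ (by simp)⟩

theorem pairN {x y : V} (hAP : T_AP) (hx : x ∈ c.N') (hy : y ∈ c.N') :
    ZFSet.pair x y ∈ c.N' :=
  ((hAP _ c.N' c.N c.b0 c.σ0 c.np c.map0 c.ne0).1 x hx y hy).1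

theorem interN {x y : V} (hAP : T_AP) (hx : x ∈ c.N') (hy : y ∈ c.N') : x ∩ y ∈ c.N' :=
  ((hAP _ c.N' c.N c.b0 c.σ0 c.np c.map0 c.ne0).2.2.1 x hx y hy).1

theorem pmem {x y X : V} (hAP : T_AP) (hX : X ∈ c.N') (hx : x ∈ c.N') (hy : y ∈ c.N') :
    ZFSet.pair x y ∈ X ↔ ZFSet.pair (vl x) (vl y) ∈ vl X := by
  rw [E.mem _ (E.pairN hAP hx hy) _ hX, E.pair x hx y hy]

theorem fval (hAP : T_AP) {n : ℕ} {x y : V} (h : ZFSet.pair x y ∈ c.fg n) :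
    ∃ u : El (A n).B, u.val = vl x ∧ (f n u).val = vl y := by
  obtain ⟨hx, hy⟩ := E.trp (E.fN n) h
  rw [E.pmem hAP (E.fN n) hx hy, E.vf] at h
  exact (ga_pair _).1 h

theorem kval (hAP : T_AP) {n : ℕ} {x y : V} (h : ZFSet.pair x y ∈ c.kg n) :
    ∃ u : El (A n).B, u.val = vl x ∧ (k n u).val = vl y := by
  obtain ⟨hx, hy⟩ := E.trp (E.kN n) h
  rw [E.pmem hAP (E.kN n) hx hy, E.vk] at h
  exact (ga_pair _).1 h

theorem jval (hAP : T_AP) {n : ℕ} {x y : V} (h : ZFSet.pair x y ∈ c.jg n) :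
    ∃ u : El Z.B, u.val = vl x ∧ ((k n).proj u).val = vl y := by
  obtain ⟨hx, hy⟩ := E.trp (E.jN n) h
  rw [E.pmem hAP (E.jN n) hx hy, E.vj] at h
  exact (ga_pgr _).1 h

theorem mema {n : ℕ} {x : V} (hx : x ∈ c.N') : x ∈ c.a n ↔ vl x ∈ (A n).B := by
  rw [E.mem _ hx _ (E.aN n), E.va]

theorem memz {x : V} (hx : x ∈ c.N') : x ∈ c.z ↔ vl x ∈ Z.B := by
  rw [E.mem _ hx _ E.zN, E.vz]

theorem memcls {x : V} (hx : x ∈ c.N') : x ∈ c.cls ↔ vl x ∈ CLS f k := by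
  rw [E.mem _ hx _ E.clsN, E.vcls]

theorem T1 (hAP : T_AP) (hL : Lim A f Z k) {n : ℕ} {x y v : V} (h1 : ZFSet.pair x y ∈ c.fg n)
    (h2 : ZFSet.pair y v ∈ c.kg (n + 1)) : x ∈ c.a n ∧ ZFSet.pair x v ∈ c.kg n := by
  obtain ⟨hx, hy⟩ := E.trp (E.fN n) h1
  obtain ⟨-, hv⟩ := E.trp (E.kN _) h2
  obtain ⟨u, hu1, hu2⟩ := E.fval hAP h1
  obtain ⟨u', hu3, hu4⟩ := E.kval hAP h2
  have h3 : u' = f n u := El.ext (hu3.trans hu2.symm)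
  refine ⟨(E.mema hx).2 (hu1 ▸ u.mem), ?_⟩
  rw [E.pmem hAP (E.kN n) hx hv, E.vk]
  refine (ga_pair _).2 ⟨u, hu1, ?_⟩
  rw [← hu4, h3]
  exact congrArg El.val (hL.comm n u).symm

theorem T3 (hAP : T_AP) (hL : Lim A f Z k) {n : ℕ} {x y v : V} (h1 : ZFSet.pair x y ∈ c.fg n)
    (h2 : ZFSet.pair x v ∈ c.kg n) : y ∈ c.a (n + 1) ∧ ZFSet.pair y v ∈ c.kg (n + 1) := by
  obtain ⟨hx, hy⟩ := E.trp (E.fN n) h1
  obtain ⟨-, hv⟩ := E.trp (E.kN _) h2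
  obtain ⟨u, hu1, hu2⟩ := E.fval hAP h1
  obtain ⟨u', hu3, hu4⟩ := E.kval hAP h2
  have h3 : u' = u := El.ext (hu3.trans hu1.symm)
  refine ⟨(E.mema hy).2 (hu2 ▸ (f n u).mem), ?_⟩
  rw [E.pmem hAP (E.kN _) hy hv, E.vk]
  refine (ga_pair _).2 ⟨f n u, hu2, ?_⟩
  rw [← hu4, h3]
  exact congrArg El.val (hL.comm n u)

/-- application of the known functions -/
theorem appl (hAF : T_AF) {F' X' Fv Xv : V} (h1 : c.σ0 F' Fv = c.b0) (h2 : c.σ0 X' Xv = c.b0)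
    (h3 : ∀ y ∈ Xv, ∃! z, ZFSet.pair y z ∈ Fv) {x : V} (hx : x ∈ X') :
    ∃ y, ZFSet.pair x y ∈ F' := by
  obtain ⟨-, x2, -, h4, -, -⟩ := hAF _ c.N' c.N c.b0 c.σ0 c.np c.map0 c.ne0 F' Fv X' Xv h1 h2 h3
    x hx
  exact ⟨x2, (h4 x2).2 rfl⟩

theorem T2 (hAF : T_AF) {n : ℕ} {x : V} (hx : x ∈ c.a n) : ∃ y, ZFSet.pair x y ∈ c.fg n := by
  obtain ⟨-, -, -, h4⟩ := c.kn c.map0 c.ne0 c.kn0
  exact E.appl hAF (h4 n).2.1 (h4 n).1 (ga_fun _) hx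

theorem T4 (hAP : T_AP) (hAF : T_AF) (hMP : T_MP) (hL : Lim A f Z k) {m : ℕ} {d : V}
    (hd : d ∈ c.z) : ∃ x v, ZFSet.pair d x ∈ c.jg m ∧ x ∈ c.a m ∧ ZFSet.pair x v ∈ c.kg m ∧
      v ∈ c.z ∧ d ⊆ v := by
  obtain ⟨-, hz, -, h4⟩ := c.kn c.map0 c.ne0 c.kn0
  obtain ⟨x, hx⟩ := E.appl hAF (h4 m).2.2.2.2.2 hz (ga_pfun _) hd
  obtain ⟨hdN, hxN⟩ := E.trp (E.jN m) hx
  obtain ⟨u, hu1, hu2⟩ := E.jval hAP hx
  have hxa : x ∈ c.a m := (E.mema hxN).2 (hu2 ▸ ((k m).proj u).mem)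
  obtain ⟨v, hv⟩ := E.appl hAF (h4 m).2.2.2.1 (h4 m).1 (ga_fun _) hxa
  obtain ⟨-, hvN⟩ := E.trp (E.kN m) hv
  obtain ⟨u', hu3, hu4⟩ := E.kval hAP hv
  have h5 : u' = (k m).proj u := El.ext (hu3.trans hu2.symm)
  refine ⟨x, v, hx, hxa, hv, (E.memz hvN).2 (hu4 ▸ (k m u').mem), ?_⟩
  rw [E.sub _ hdN _ hvN, ← hu1, ← hu4, h5]
  refine El.le_iff.1 ?_
  refine (hMP _ _ (k m).toMor).2.1 u ?_
  have h6 : (k m) ⊤ = ⊤ := hL.kunit m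
  rw [h6]
  exact le_top

theorem dense (hAP : T_AP) (hAD : T_AD) (hL : Lim A f Z k) : c.cls ⊆ c.z ∧
    ∀ x ∈ c.z, x ≠ ∅ → ∃ d ∈ c.cls, d ≠ ∅ ∧ d ⊆ x := by
  obtain ⟨-, hz, hcls, -⟩ := c.kn c.map0 c.ne0 c.kn0
  obtain ⟨h1, h2⟩ := hAD _ c.N' c.N c.b0 c.σ0 c.np c.map0 c.ne0 c.z Z.B hz c.cls (CLS f k)
    (by rw [hcls]; exact c.ne0)
  refine ⟨h1.2 (fun x hx => (ZFSet.mem_sep.1 hx).1), h2.2 ?_⟩
  intro x hx hx0
  obtain ⟨t, ht, hle⟩ := hL.dns ⟨x, hx⟩ (fun h => hx0 (by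
    have := congrArg El.val h
    rwa [El.bot_val] at this))
  refine ⟨_, ZFSet.mem_sep.2 ⟨(⨅ n, k n (t n)).mem, t, ht, rfl⟩, ?_, El.le_iff.1 hle⟩
  intro h
  exact (hL.thr t ht).1 (El.ext (h.trans El.bot_val.symm))

/-- the element of `cls` below a member of the generic filter -/
theorem exists_cls (hAP : T_AP) (hAD : T_AD) (hZN : T_ZN) (hL : Lim A f Z k) {x : V}
    (hx : x ∈ c.G) : ∃ d ∈ c.cls, d ∈ c.G ∧ d ⊆ x := by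
  have hxz : x ∈ c.z := c.gen.sub hx
  have hxN : x ∈ c.N' := E.tr _ E.zN _ hxz
  have hzf : ZFm (· ∈ c.N') :=
    (hZN _ c.N' c.N c.b0 c.σ0 c.np c.map0 c.ne0).toZFm
  obtain ⟨hcz, hden⟩ := E.dense hAP hAD hL
  have hD : (c.z.sep fun d => d ∩ x = ∅ ∨ (d ∈ c.cls ∧ d ⊆ x)) ∈ c.N' := by
    have h1 : Tm ZFm (fun _ v => (v 0).sep fun d => d ∩ v 1 = ∅ ∨ (d ∈ v 2 ∧ d ⊆ v 1)) := by
      refine Tm.sep (R := fun _ v => v 0 ∩ v 2 = ∅ ∨ (v 0 ∈ v 3 ∧ v 0 ⊆ v 2)) ?_ (Tm.var 0)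
      exact (Dfb.eq ((Tm.var 0).inter (Tm.var 2)) Tm.empty).or
        ((Dfb.mem (Tm.var 0) (Tm.var 3)).and (Dfb.subset (Tm.var 0) (Tm.var 2)))
    refine h1.1 _ hzf (fun i => match i with | 0 => c.z | 1 => x | _ + 2 => c.cls) ?_
    intro i
    match i with
    | 0 => exact E.zN
    | 1 => exact hxN
    | _ + 2 => exact E.clsN
  obtain ⟨d, hd, hdG⟩ := c.gen.meets _ hD (fun y hy => (ZFSet.mem_sep.1 hy).1) (by
    intro y hy hy0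
    have hyN : y ∈ c.N' := E.tr _ E.zN _ hy
    by_cases h1 : y ∩ x = ∅
    · exact ⟨y, ZFSet.mem_sep.2 ⟨hy, Or.inl h1⟩, hy0, fun _ h => h⟩
    · have h2 : y ∩ x ∈ c.z := by
        rw [E.memz (E.interN hAP hyN hxN), E.inter _ hyN _ hxN]
        exact IsCBA.inter _ ((E.memz hyN).1 hy) _ ((E.memz hxN).1 hxz)
      obtain ⟨d, hd, hd0, hdy⟩ := hden _ h2 h1
      refine ⟨d, ZFSet.mem_sep.2 ⟨hcz hd, Or.inr ⟨hd, ?_⟩⟩, hd0, ?_⟩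
      · exact fun t ht => (ZFSet.mem_inter.1 (hdy ht)).2
      · exact fun t ht => (ZFSet.mem_inter.1 (hdy ht)).1)
  obtain ⟨-, h1 | h1⟩ := ZFSet.mem_sep.1 hd
  · exact absurd (h1 ▸ c.gen.inter d hdG x hx) c.gen.bot
  · exact ⟨d, h1.1, hdG, h1.2⟩

theorem topn (hAP : T_AP) (hAF : T_AF) (hL : Lim A f Z k) (n : ℕ) :
    ∃ x y, ZFSet.pair x y ∈ c.kg n ∧ y ∈ c.G := by
  induction n with
  | zero => exact c.top
  | succ n ih =>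
    obtain ⟨x, y, h1, h2⟩ := ih
    obtain ⟨hxN, -⟩ := E.trp (E.kN n) h1
    obtain ⟨u, hu, -⟩ := E.kval hAP h1
    obtain ⟨x2, hx2⟩ := E.T2 hAF ((E.mema hxN).2 (hu ▸ u.mem))
    exact ⟨x2, y, (E.T3 hAP hL hx2 h1).2, h2⟩

theorem mem_Gn {n : ℕ} {x : V} (hAP : T_AP) : x ∈ c.Gn n ↔ ∃ y ∈ c.G, ZFSet.pair x y ∈ c.kg n := by
  unfold Gn pull
  rw [ZFSet.mem_sep]
  constructor
  · exact fun h => h.2
  · rintro ⟨y, hy, h⟩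
    refine ⟨?_, y, hy, h⟩
    obtain ⟨hx, -⟩ := E.trp (E.kN n) h
    obtain ⟨u, hu, -⟩ := E.kval hAP h
    exact (E.mema hx).2 (hu ▸ u.mem)

theorem gen_n (hAP : T_AP) (hAF : T_AF) (hNR : T_NR) (hL : Lim A f Z k) (n : ℕ) :
    NGen c.N' (c.a n) (c.Gn n) := by
  obtain ⟨-, hz, -, h4⟩ := c.kn c.map0 c.ne0 c.kn0
  exact hNR _ c.N' c.N c.b0 c.σ0 c.np c.map0 c.ne0 (A n).B Z.B (k n).toMor (c.pm n) (c.a n) c.z
    (c.kg n) c.G (h4 n).2.2.2.2.1 (h4 n).1 hz (h4 n).2.2.2.1 c.gen (E.topn hAP hAF hL n)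

/-- translation of the names -/
theorem ev_eq (hAP : T_AP) (hZN : T_ZN) (n : ℕ) {w r : V} (hw : w ∈ c.N') (hr : r ∈ c.N') :
    ∃ r2 ∈ c.N', ev w r (c.Gn n) = ev w r2 c.G := by
  have hzf : ZFm (· ∈ c.N') :=
    (hZN _ c.N' c.N c.b0 c.σ0 c.np c.map0 c.ne0).toZFm
  refine ⟨(ZFSet.prod w c.z).sep fun d => ∃ x ∈ c.a n, ZFSet.pair x (snd d) ∈ c.kg n ∧
    ZFSet.pair (fst d) x ∈ r, ?_, ?_⟩
  · have h1 : Tm ZFm (fun _ v => (ZFSet.prod (v 0) (v 1)).sep fun d => ∃ x ∈ v 2,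
        ZFSet.pair x (snd d) ∈ v 3 ∧ ZFSet.pair (fst d) x ∈ v 4) := by
      refine Tm.sep (R := fun _ v => ∃ x ∈ v 3,
        ZFSet.pair x (snd (v 0)) ∈ v 4 ∧ ZFSet.pair (fst (v 0)) x ∈ v 5) ?_
        ((Tm.var 0).prod (Tm.var 1))
      refine Dfb.bex (R := fun _ v => ZFSet.pair (v 0) (snd (v 1)) ∈ v 5 ∧
        ZFSet.pair (fst (v 1)) (v 0) ∈ v 6) ktr_zfm (Tm.var 3) ?_
      exact (Dfb.pairMem (Tm.var 0) (Tm.var 1).snd (Tm.var 5)).and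
        (Dfb.pairMem (Tm.var 1).fst (Tm.var 0) (Tm.var 6))
    refine h1.1 _ hzf (fun i => match i with
      | 0 => w | 1 => c.z | 2 => c.a n | 3 => c.kg n | _ + 4 => r) ?_
    intro i
    match i with
    | 0 => exact hw
    | 1 => exact E.zN
    | 2 => exact E.aN n
    | 3 => exact E.kN n
    | _ + 4 => exact hr
  · ext β
    unfold ev
    rw [ZFSet.mem_sep, ZFSet.mem_sep]
    refine and_congr_right fun hβ => ?_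
    constructor
    · rintro ⟨x, hx, hβx⟩
      obtain ⟨y, hy, hxy⟩ := (E.mem_Gn hAP).1 hx
      have hxa : x ∈ c.a n := by
        unfold Gn pull at hx
        exact (ZFSet.mem_sep.1 hx).1
      refine ⟨y, hy, ZFSet.mem_sep.2 ⟨ZFSet.pair_mem_prod.2 ⟨hβ, c.gen.sub hy⟩, x, ?_, ?_, ?_⟩⟩
      · exact hxa
      · rw [snd_pair]; exact hxy
      · rw [fst_pair]; exact hβx
    · rintro ⟨y, hy, h⟩
      obtain ⟨-, x, hx, h1, h2⟩ := ZFSet.mem_sep.1 h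
      rw [snd_pair] at h1
      rw [fst_pair] at h2
      exact ⟨x, (E.mem_Gn hAP).2 ⟨y, hy, h1⟩, h2⟩

end Ev

end Ctx

end SF.H35
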