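import Pool.Agent.H84.SF.Geo2
import Pool.Agent.H62.HIL.Dim2

/-!
# MP_70ba79_ag, THEOREM S, row HMF: homogeneous elements are values of forms
-/

set_option autoImplicit false

namespace Pool.Agent.H35.SF

open MvPolynomial SC
open Pool.Agent.H27.LV (ge deg poleOrder canDeg)
open Pool.Agent.H92.OD (HS cf sg uu Lat geO IsO DF DD)
open Pool.Agent.H84.SM (y1 y2 Near cr dt dp)
open Pool.Agent.H3.SF (Itg Bb BB Hm eu grd hes Sfc Crd Cnn Crf Prm nv)
open Pool.Agent.H84.SF

theorem pf_HMF : T_HMF := by
  intro k F σ _ _ _ _ X u dd J j0 hS a d ha hd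
  have : CharZero F := charZero_of_injective_algebraMap (algebraMap k F).injective
  rw [Algebra.adjoin_range_eq_range_aeval] at ha
  obtain ⟨f, rfl⟩ := ha
  have hE : ∀ i, Hm k (eu u dd) 1 (X i) := by
    intro i
    unfold Hm
    rw [hS.Xeu i]
    push_cast
    rw [one_mul]
  refine ⟨homogeneousComponent d f, homogeneousComponent_isHomogeneous d f, ?_⟩
  have h1 : ∀ e ∈ Finset.range (max f.totalDegree d + 1),
      Hm k (eu u dd) (e : ℤ) (aeval X (homogeneousComponent e f) -
        if e = d then aeval X f else 0) := by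
    intro e _
    refine Pool.Agent.H62.HIL.hm_sub
      (Pool.Agent.H62.HIL.hm_aeval hE (homogeneousComponent_isHomogeneous e f)) ?_
    by_cases h : e = d
    · rw [if_pos h, h]
      exact hd
    · rw [if_neg h]
      exact Pool.Agent.H62.HIL.hm_zero _
  have h2 : ∑ e ∈ Finset.range (max f.totalDegree d + 1),
      (aeval X (homogeneousComponent e f) - if e = d then aeval X f else 0) = 0 := by
    rw [Finset.sum_sub_distrib, ← map_sum,
      Pool.Agent.H62.HIL.sum_comp _ _ (le_max_left f.totalDegree d), Finset.sum_ite_eq',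
      if_pos (Finset.mem_range.2 (Nat.lt_succ_of_le (le_max_right _ _))), sub_self]
  have h3 := Pool.Agent.H62.HIL.hm_sum_eq_zero (κ := k) (E := eu u dd)
    (Finset.range (max f.totalDegree d + 1)) (fun e => (e : ℤ))
    (fun i _ j _ h => Nat.cast_injective (R := ℤ) h)
    (fun e => aeval X (homogeneousComponent e f) - if e = d then aeval X f else 0) h1 h2 d
    (Finset.mem_range.2 (Nat.lt_succ_of_le (le_max_right _ _)))
  simp only [if_true] at h3
  exact sub_eq_zero.1 h3

end Pool.Agent.H35.SF
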