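import Pool.Agent.H77.SF.KT2

/-!
# MP_3b3fc8_lc, part K, module KUL: fullness of countable sets is absolute
-/

open Ordinal Cardinal Order Set
open scoped ZFSet

namespace SF.H35

open SF

private theorem kul_ins {M : V → Prop} (k : ZFm M) {x y : V} (hx : M x) (hy : M y) :
    M (insert x y) := by
  have h1 := (Tm.ins (Tm.var 0) (Tm.var 1)).1 M k (cons x fun _ => y) (by
    intro i
    rcases i with _ | i
    · exact hx
    · exact hy)
  simpa only [cons_zero, cons_succ] using h1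

private theorem kul_card {x : V} (h : (x : Set V).Countable) : x.card ≤ ℵ₀ := by
  haveI : Countable {y // y ∈ x} := h.to_subtype
  have h2 : #{y // y ∈ x} ≤ ℵ₀ := Cardinal.mk_le_aleph0
  rw [ZFSet.cardinalMk_coe_sort, ← Cardinal.lift_aleph0.{1, 0}] at h2
  exact Cardinal.lift_le.1 h2

/-- the sentence: each set is in a level of the hierarchy -/
private theorem kul_dfb : Dfb ZFm (fun M v => ∀ y, M y → ∃ x, M x ∧ (IsOrd x ∧
    y ∈ LhS (v 0) ∅ x)) := by
  refine (Dfb.all (R := fun M v => ∃ x, M x ∧ (IsOrd x ∧ v 0 ∈ LhS (v 1) ∅ x)) ?_).congr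
    fun M k v hv => Iff.rfl
  refine (Dfb.ex (R := fun M v => IsOrd (v 0) ∧ v 1 ∈ LhS (v 2) ∅ (v 0)) ?_).congr
    fun M k v hv => Iff.rfl
  exact (Dfb.isOrd (Tm.var 0)).and
    (Dfb.mem (Tm.var 1) (Tm.LhS (Tm.var 2) Tm.empty (Tm.var 0)))

/-- the range of a function as a definable function -/
private theorem kul_tm : Tm ZFm (fun _ v => (v 0).sep fun y => ∃ u ∈ v 1,
    ZFSet.pair u y ∈ v 2) := by
  refine (Tm.sep (R := fun _ w => ∃ u ∈ w 2, ZFSet.pair u (w 0) ∈ w 3) ?_ (Tm.var 0)).congr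
    fun M k v hv => rfl
  exact (Dfb.bex (R := fun _ w => ZFSet.pair (w 0) (w 1) ∈ w 4) ktr_zfm (Tm.var 2)
    (Dfb.pairMem (Tm.var 0) (Tm.var 1) (Tm.var 4))).congr fun M k v hv => Iff.rfl

theorem kul (hLLS : T_LLS) (hLCO : T_LCO) (hLEZ : T_LEZ) (hLHE : T_LHE) (hLED : T_LED)
    (hLET : T_LET) : T_KUL := by
  classical
  rintro M ⟨⟨hM, -⟩, hMw⟩ N' hMN hctb ⟨hN't, hom, γ, -, hZ, hR⟩
  refine ⟨hN't, hom, ?_⟩
  set Q : V := LN N' γ with hQ
  set a : V := insert N' N' with ha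
  have hQa : Q = Lh a ∅ γ := rfl
  have hat : a.IsTransitive := by
    intro x hx y hy
    rw [ha, ZFSet.mem_insert_iff] at hx ⊢
    rcases hx with rfl | hx
    · exact Or.inr hy
    · exact Or.inr (hN't x hx hy)
  have hQt : Q.IsTransitive := fun x hx y hy => hZ.trans x hx y hy
  have haQ : a ⊆ Q := sub_Lh
  have hNa : N' ∈ a := ZFSet.mem_insert_iff.2 (Or.inl rfl)
  have hNQ : N' ∈ Q := haQ hNa
  have haQ2 : a ∈ Q := kul_ins hZ.toZFm hNQ hNQ
  have heQ : (∅ : V) ∈ Q := hZ.toZFm.mempty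
  obtain ⟨hγ, hγQ⟩ := hLHE a ∅ γ hat hZ.toZFm haQ2 heQ
  -- the countable set
  have hac : (a : Set V).Countable := by
    have h1 : (a : Set V) = insert N' (N' : Set V) := by
      ext x
      simp [ha]
    rw [h1]
    exact hctb.insert _
  have hSt : (insert a a : V).IsTransitive := by
    intro x hx y hy
    rw [ZFSet.mem_insert_iff] at hx ⊢
    rcases hx with rfl | hx
    · exact Or.inr hy
    · exact Or.inr (hat x hx hy)
  have hSc : ((insert a a : V) : Set V).Countable := by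
    have h1 : ((insert a a : V) : Set V) = insert a (a : Set V) := by
      ext x
      simp
    rw [h1]
    exact hac.insert _
  have hlt1 : ℵ₀ < (Cardinal.aleph 1 : Cardinal.{0}) := Cardinal.aleph0_lt_aleph_one
  obtain ⟨X, hXQ, hSX, hXc, -⟩ := hLLS (Cardinal.aleph 1) Cardinal.isRegular_aleph_one hlt1 Q
    (insert a a) ⟨N', hNQ⟩ (by
      intro x hx
      rcases ZFSet.mem_insert_iff.1 hx with rfl | hx
      · exact haQ2
      · exact haQ hx) (lt_of_le_of_lt (kul_card hSc) hlt1) (fun _ => ∅) (fun x _ => ⟨by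
      rw [ZFSet.card_empty]
      exact lt_of_lt_of_le Cardinal.aleph0_pos hlt1.le, ZFSet.empty_subset _⟩)
  obtain ⟨Q2, f, hQ2t, hf, hran, hQ2c, -, hfix⟩ := hLCO Q X hQt ⟨N', hNQ⟩ hXQ
  have hfx := hfix (insert a a) hSt hSX
  have haS : a ∈ (insert a a : V) := ZFSet.mem_insert_iff.2 (Or.inl rfl)
  have hNS : N' ∈ (insert a a : V) := ZFSet.mem_insert_iff.2 (Or.inr hNa)
  obtain ⟨haQ2', hfa⟩ := hfx a haS
  obtain ⟨hNQ2, hfN⟩ := hfx N' hNS
  obtain ⟨hz1, hz2⟩ := hLEZ Q2 Q f ⟨a, haQ2'⟩ hQ2t hf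
  have hZ2 : ZFCm (· ∈ Q2) := hz2 hZ
  have hZF2 : ZFm (· ∈ Q2) := hZ2.toZFm
  -- the height
  have hne : {α : Ordinal.{0} | α.toZFSet ∉ Q2}.Nonempty := by
    refine ⟨Q2.rank, fun h => ?_⟩
    have h1 := ZFSet.rank_lt_of_mem h
    rw [Ordinal.rank_toZFSet] at h1
    exact lt_irrefl _ h1
  set g2 : Ordinal.{0} := sInf {α : Ordinal.{0} | α.toZFSet ∉ Q2} with hg2
  have hg2n : g2.toZFSet ∉ Q2 := csInf_mem hne
  have hg2i : ∀ α : Ordinal.{0}, α.toZFSet ∈ Q2 ↔ α < g2 := by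
    intro α
    constructor
    · intro h
      by_contra hcon
      rw [not_lt] at hcon
      rcases hcon.eq_or_lt with h1 | h1
      · rw [h1] at hg2n
        exact hg2n h
      · exact hg2n (hQ2t _ h (Ordinal.toZFSet_mem_toZFSet_iff.2 h1))
    · intro h
      by_contra hcon
      exact absurd (csInf_le (OrderBot.bddBelow _) hcon) (not_le.2 h)
  have hg2l : IsSuccLimit g2 := by
    rw [Ordinal.isSuccLimit_iff]
    refine ⟨?_, ?_⟩
    · have h1 : (0 : Ordinal.{0}) < g2 := (hg2i 0).1 (by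
        rw [Ordinal.toZFSet_zero]
        exact hZF2.mempty)
      exact h1.ne'
    · rw [Order.isSuccPrelimit_iff_succ_lt]
      intro α hα
      refine (hg2i _).1 ?_
      have h1 := kul_ins hZF2 ((hg2i α).2 hα) ((hg2i α).2 hα)
      rw [← Ordinal.toZFSet_succ] at h1
      exact h1
  have hQ2L : Q2 = LN N' g2 := by
    ext y
    show y ∈ Q2 ↔ y ∈ Lh a ∅ g2
    constructor
    · intro hy
      have h1 := (hLED ZFm _ kul_dfb Q2 Q f hf hZF2 hZ.toZFm (fun _ => a) (fun _ => haQ2')).2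
      have h2 := h1 (by
        intro x hx
        obtain ⟨β, hβ, hxβ⟩ := (mem_Lh_limit hγ).1 hx
        refine ⟨β.toZFSet, (hγQ β).2 hβ, ⟨β, rfl⟩, ?_⟩
        rw [hfa, LhS_ord]
        exact hxβ)
      obtain ⟨x, hx, ⟨α, rfl⟩, h3⟩ := h2 y hy
      rw [LhS_ord] at h3
      exact Lh_mono ((hg2i α).1 hx).le h3
    · intro hy
      obtain ⟨β, hβ, hyβ⟩ := (mem_Lh_limit hg2l).1 hy
      exact hQ2t _ (hZF2.mLh haQ2' hZF2.mempty ((hg2i β).2 hβ)) hyβ
  refine ⟨g2, ?_, ?_, ?_⟩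
  · refine hM.trans _ hMw _ ?_
    unfold w1
    refine Ordinal.toZFSet_mem_toZFSet_iff.2 ?_
    rw [← Cardinal.ord_aleph, Cardinal.lt_ord]
    have h1 : g2.toZFSet.card ≤ Q2.card := by
      refine ZFSet.card_mono ?_
      intro x hx
      obtain ⟨α, hα, rfl⟩ := Ordinal.mem_toZFSet_iff.1 hx
      exact (hg2i α).2 hα
    rw [Ordinal.card_toZFSet, hQ2c] at h1
    exact lt_of_le_of_lt h1 hXc
  · rw [← hQ2L]
    exact hZ2
  · rw [← hQ2L]
    intro x hx u hu hfun
    have hxS : x ∈ (insert a a : V) :=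
      ZFSet.mem_insert_iff.2 (Or.inr (ZFSet.mem_insert_iff.2 (Or.inr hx)))
    obtain ⟨hxQ2, hfx1⟩ := hfx x hxS
    have huQ : app f u ∈ Q := app_mem hf.func hu
    have hD : Dfb ZFm (fun _ v => ZFSet.IsFunc (v 0) (v 1) (v 2)) :=
      Dfb.isFunc (Tm.var 0) (Tm.var 1) (Tm.var 2)
    have hv : ∀ i, (cons x (cons N' fun _ => u)) i ∈ Q2 := by
      intro i
      rcases i with _ | _ | i
      · exact hxQ2
      · exact hNQ2
      · exact hu
    have h1 := (hLED ZFm _ hD Q2 Q f hf hZF2 hZ.toZFm (cons x (cons N' fun _ => u)) hv).1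
    have h2 : ZFSet.IsFunc x N' (app f u) := by
      have h3 := h1 hfun
      simp only [cons_zero, cons_succ] at h3
      rwa [hfx1, hfN] at h3
    have hr := hR x hx (app f u) huQ h2
    set r : V := N'.sep fun y => ∃ w ∈ x, ZFSet.pair w y ∈ app f u with hrd
    have hv' : ∀ i, (cons N' (cons x fun _ => u)) i ∈ Q2 := by
      intro i
      rcases i with _ | _ | i
      · exact hNQ2
      · exact hxQ2
      · exact hu
    have h4 := hLET ZFm _ kul_tm Q2 Q f hf hZF2 hZ.toZFm (cons N' (cons x fun _ => u)) hv'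
    have h4m := kul_tm.1 _ hZF2 (cons N' (cons x fun _ => u)) hv'
    simp only [cons_zero, cons_succ] at h4 h4m
    rw [hfN, hfx1] at h4
    have hrS : r ∈ (insert a a : V) :=
      ZFSet.mem_insert_iff.2 (Or.inr (ZFSet.mem_insert_iff.2 (Or.inr hr)))
    obtain ⟨hrQ2, hfr⟩ := hfx r hrS
    -- injectivity
    have hinj : ∀ z ∈ Q2, ∀ z2 ∈ Q2, app f z = app f z2 → z = z2 := by
      intro z hz z2 hz2 hzz
      have h5 := (hf.el (.eq 0 1) (cons z fun _ => z2) (by
        intro i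
        rcases i with _ | i
        · exact hz
        · exact hz2)).2
      exact h5 hzz
    have h6 : (N'.sep fun y => ∃ w ∈ x, ZFSet.pair w y ∈ u) = r := by
      refine hinj _ h4m _ hrQ2 ?_
      rw [h4, hfr]
    rw [h6]
    exact hr

end SF.H35
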