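import Pool.Agent.H77.SF.KT2
import Pool.Agent.H58.SF.LLS

/-!
# MP_3b3fc8_lc, part K, module KVB: small frames
-/

open Ordinal Cardinal Order Set
open scoped ZFSet

namespace SF.H35

open SF

/-- the set of the possible values has the size of the algebra -/
private theorem kvb_card {B : V} [IsCBA B] {N' N t : V} {σ : V → V → El B}
    (hfn : ∀ x y y', y ≠ y' → σ x y ⊓ σ x y' = ⊥) (hc : (N' : Set V).Countable)
    (hB : B ⊆ t) (ht : ℵ₀ ≤ t.card) :
    (N.sep fun y => ∃ x ∈ N', σ x y ≠ ⊥).card ≤ t.card := by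
  classical
  set Y : V := N.sep fun y => ∃ x ∈ N', σ x y ≠ ⊥ with hY
  have hex : ∀ y : {y // y ∈ Y}, ∃ x ∈ N', σ x y.1 ≠ ⊥ := fun y => (ZFSet.mem_sep.1 y.2).2
  choose g hg hgne using hex
  have hinj : Function.Injective
      (fun y : {y // y ∈ Y} => ((⟨g y, hg y⟩, σ (g y) y.1) : {x // x ∈ N'} × El B)) := by
    intro y z hyz
    have h1 : g y = g z := congrArg (fun q => q.1.1) hyz
    have h2 : σ (g y) y.1 = σ (g z) z.1 := congrArg (fun q => q.2) hyz
    by_contra hne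
    have hne2 : y.1 ≠ z.1 := fun h => hne (Subtype.ext h)
    have h3 := hfn (g y) y.1 z.1 hne2
    rw [h1] at h3 h2
    rw [h2, inf_idem] at h3
    exact hgne z h3
  have h1 := Cardinal.mk_le_of_injective hinj
  rw [Cardinal.mk_prod, Cardinal.lift_id, Cardinal.lift_id] at h1
  haveI : Countable {x // x ∈ N'} := hc.to_subtype
  have h2 : #{x // x ∈ N'} ≤ ℵ₀ := Cardinal.mk_le_aleph0
  have h3 : #(El B) = lift.{1, 0} B.card := by
    rw [← ZFSet.cardinalMk_coe_sort]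
    exact Cardinal.mk_congr (El.equiv B)
  have h4 : lift.{1, 0} B.card ≤ lift.{1, 0} t.card := Cardinal.lift_le.2 (ZFSet.card_mono hB)
  have h5 : ℵ₀ ≤ lift.{1, 0} t.card := by
    rw [← Cardinal.lift_aleph0.{1, 0}]
    exact Cardinal.lift_le.2 ht
  have h6 : #{y // y ∈ Y} = lift.{1, 0} Y.card := ZFSet.cardinalMk_coe_sort
  rw [h6, h3] at h1
  have h7 : #{x // x ∈ N'} * lift.{1, 0} B.card ≤ lift.{1, 0} t.card := by
    refine le_trans (mul_le_mul' (h2.trans h5) h4) ?_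
    rw [Cardinal.mul_eq_self h5]
  exact Cardinal.lift_le.1 (h1.trans h7)

private theorem kvb_inf {t : V} (ht : t.IsTransitive) (hw : w1 ∈ t) : ℵ₀ ≤ t.card := by
  classical
  have hsub : w1 ⊆ t := ht.subset_of_mem hw
  refine le_trans ?_ (ZFSet.card_mono hsub)
  have hinj : Function.Injective (fun n : ℕ => (⟨(n : Ordinal.{0}).toZFSet, by
      unfold w1
      rw [Ordinal.mem_toZFSet_iff]
      exact ⟨n, lt_of_lt_of_le (Ordinal.nat_lt_omega0 n) (Ordinal.omega0_le_omega 1), rfl⟩⟩ :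
        {x // x ∈ w1})) := by
    intro m n hmn
    have h1 : (m : Ordinal.{0}).toZFSet = (n : Ordinal.{0}).toZFSet := congrArg Subtype.val hmn
    have h2 : (m : Ordinal.{0}) = n := Ordinal.toZFSet_injective h1
    exact_mod_cast h2
  have h1 := Cardinal.mk_le_of_injective (f := fun n : ULift.{1} ℕ => _)
    (fun a b hab => ULift.ext _ _ (hinj hab))
  rw [Cardinal.mk_uLift, Cardinal.mk_nat] at h1
  have h6 : #{y // y ∈ w1} = lift.{1, 0} w1.card := ZFSet.cardinalMk_coe_sort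
  rw [h6] at h1
  refine Cardinal.lift_le.{1, 0}.1 ?_
  simpa using h1

theorem kvb (hKVA : T_KVA) (hLLS : T_LLS) (hLCO : T_LCO) (hLPR : T_LPR) (hMB : T_MB) :
    T_KVB := by
  intro A C h p F t ht hA hC hh hp hw
  have hNt : F.N.IsTransitive := fun x hx y hy => F.np.zfc.trans x hx y hy
  have hinN : ∀ x y, F.σ x y = F.b → y ∈ F.N := fun x y hxy =>
    (F.map.dom x y (by rw [hxy]; exact F.ne)).2
  have hAN := hinN _ _ F.kB
  have hCN := hinN _ _ F.kC
  have hhN := hinN _ _ F.kh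
  have hpN := hinN _ _ F.kp
  have hwN := hinN _ _ F.kw
  have hinf : ℵ₀ ≤ t.card := kvb_inf ht hw
  have hYc := kvb_card (N' := F.N') (N := F.N) F.map.fn F.np.ctb (ht.subset_of_mem hA) hinf
  set Y : V := F.N.sep fun y => ∃ x ∈ F.N', F.σ x y ≠ ⊥ with hY
  have ht0 : (t ∩ F.N).IsTransitive := by
    intro x hx y hy
    obtain ⟨h1, h2⟩ := ZFSet.mem_inter.1 hx
    exact ZFSet.mem_inter.2 ⟨ht.subset_of_mem h1 hy, hNt x h2 hy⟩
  have hreg : (succ t.card).IsRegular := Cardinal.isRegular_succ hinf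
  have hlt : ℵ₀ < succ t.card := lt_of_le_of_lt hinf (Order.lt_succ _)
  obtain ⟨X, hXN, hSX, hXc, -⟩ := hLLS (succ t.card) hreg hlt F.N (Y ∪ (t ∩ F.N)) ⟨w1, hwN⟩
    (by
      intro y hy
      rcases ZFSet.mem_union.1 hy with h1 | h1
      · exact (ZFSet.mem_sep.1 h1).1
      · exact (ZFSet.mem_inter.1 h1).2)
    (H58.card_union_lt hlt.le (lt_of_le_of_lt hYc (Order.lt_succ _))
      (lt_of_le_of_lt (ZFSet.card_mono fun y hy => (ZFSet.mem_inter.1 hy).1) (Order.lt_succ _)))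
    (fun _ => ∅) (fun x _ => ⟨by
      rw [ZFSet.card_empty]
      exact lt_of_lt_of_le Cardinal.aleph0_pos hlt.le, ZFSet.empty_subset _⟩)
  have hXc2 : X.card ≤ t.card := Order.lt_succ_iff.1 hXc
  obtain ⟨N0, f, hN0t, hf, hran, hN0c, -, hfix⟩ := hLCO F.N X hNt ⟨w1, hwN⟩ hXN
  have hfx : ∀ u ∈ t, u ∈ F.N → u ∈ N0 ∧ app f u = u := fun u h1 h2 =>
    hfix (t ∩ F.N) ht0 (fun y hy => hSX (ZFSet.mem_union.2 (Or.inr hy))) u
      (ZFSet.mem_inter.2 ⟨h1, h2⟩)
  obtain ⟨A1, τ, hA1, hlev⟩ := F.np.lev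
  obtain ⟨⟨A2, τ2, hA2, hN0L, -⟩, hZ⟩ := hLPR N0 F.N f A1 τ hf ⟨w1, (hfx _ hw hwN).1⟩ hN0t
    F.np.zfc hA1 hlev
  obtain ⟨hinj, hpull, hpush⟩ := hKVA A.B F.N' F.N N0 f F.b hf
  obtain ⟨-, -, hpushC⟩ := hKVA C.B F.N' F.N N0 f ⊤ hf
  have hYX : ∀ x y, F.σ x y ≠ ⊥ → ∃ z ∈ N0, app f z = y := by
    intro x y hxy
    obtain ⟨h1, h2⟩ := F.map.dom x y hxy
    exact (hran y).1 (hSX (ZFSet.mem_union.2 (Or.inl (ZFSet.mem_sep.2 ⟨h2, x, h1, hxy⟩))))
  have hpv : ∀ x, ∀ y ∈ t, y ∈ F.N → pullM N0 f F.σ x y = F.σ x y := by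
    intro x y h1 h2
    obtain ⟨h3, h4⟩ := hfx y h1 h2
    unfold pullM
    rw [if_pos h3, h4]
  have hmk : ∀ (B : V) [IsCBA B], B ∈ t → B ∈ F.N → ∀ z ∈ N0, app f z ∈ B → app f z = z := by
    intro B _ h1 h2 z hz h3
    obtain ⟨h4, h5⟩ := hfx (app f z) (ht.subset_of_mem h1 h3) (hNt B h2 h3)
    exact hinj _ h4 _ hz h5
  let F0 : Frame h p :=
    { N' := F.N', N := N0, b := F.b, σ := pullM N0 f F.σ
      w := F.w, B' := F.B', C' := F.C', h' := F.h', p' := F.p', G' := F.G'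
      np := ⟨hZ, ⟨A2, τ2, hA2, hN0L⟩, F.np.full, F.np.ctb⟩
      ne := F.ne
      map := hpull F.σ F.map hYX
      kw := by rw [hpv _ _ hw hwN]; exact F.kw
      kB := by rw [hpv _ _ hA hAN]; exact F.kB
      kC := by rw [hpv _ _ hC hCN]; exact F.kC
      kh := by rw [hpv _ _ hh hhN]; exact F.kh
      kp := by rw [hpv _ _ hp hpN]; exact F.kp
      gen := F.gen
      top := F.top
      com := by
        intro x y hxy hy z
        unfold pullM
        split_ifs with hz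
        · have h1 := F.com x y hxy hy (app f z)
          by_cases h2 : app f z ∈ A.B
          · rwa [hmk A.B hA hAN z hz h2] at h1 ⊢
          · refine le_trans h1 ?_
            unfold mkEl
            rw [dif_neg h2]
            exact bot_le
        · exact bot_le
      sc := F.sc }
  refine ⟨F0, ?_, rfl, ?_⟩
  · show N0.card ≤ t.card
    rw [hN0c]
    exact hXc2
  · rintro q hq ⟨c, τ', hl⟩
    obtain ⟨-, -, hpushc⟩ := hKVA C.B F.N' F.N N0 f c hf
    refine ⟨c, pushM N0 f τ', ?_⟩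
    refine ⟨hl.le, hl.proj, hpushc τ' hl.map, ?_, ?_⟩
    · intro x hx z
      unfold pushM
      refine sSup_le ?_
      rintro a ⟨z', hz', h1, rfl⟩
      have h2 := hl.com x hx z'
      by_cases h3 : z' ∈ C.B
      · obtain ⟨-, h5⟩ := hfx z' (ht.subset_of_mem hC h3) (hNt C.B hCN h3)
        rw [← h1, h5]
        exact h2
      · refine le_trans h2 ?_
        unfold mkEl
        rw [dif_neg h3]
        exact bot_le
    · intro z
      by_cases h1 : F.σ q z = ⊥
      · rw [h1]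
        have h2 := (hMB A.B C.B h.toMor).2.1
        rw [h2, inf_bot_eq]
        exact bot_le
      · obtain ⟨u, hu, rfl⟩ := hYX q z h1
        have h2 := hl.keep u
        have h3 : F0.σ q u = F.σ q (app f u) := by
          show pullM N0 f F.σ q u = _
          unfold pullM
          rw [if_pos hu]
        rw [h3] at h2
        refine le_trans h2 ?_
        unfold pushM
        exact le_sSup ⟨u, hu, rfl, rfl⟩

end SF.H35
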